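import Mathlib

set_option autoImplicit false

/-!
# The function `1 / (q log(q)^(1+ε))` of Lang's conjecture
-/

namespace Pool.Agent.N965.LN

/-- `1 / (q (log q)^(1+ε))` for `q ≥ 2`, extended by its value at `2` -/
noncomputable def lang (ε : ℝ) (q : ℕ) : ℝ :=
  1 / (((max q 2 : ℕ) : ℝ) * Real.log ((max q 2 : ℕ) : ℝ) ^ (1 + ε))

theorem max_pos (q : ℕ) : (0 : ℝ) < ((max q 2 : ℕ) : ℝ) := by
  have : (0 : ℕ) < max q 2 := by omega
  exact_mod_cast this

theorem log_max_pos (q : ℕ) : 0 < Real.log ((max q 2 : ℕ) : ℝ) := by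
  apply Real.log_pos
  have : 1 < max q 2 := by omega
  exact_mod_cast this

theorem lang_nonneg (ε : ℝ) (q : ℕ) : 0 ≤ lang ε q := by
  have h1 := log_max_pos q
  have h2 := max_pos q
  unfold lang
  positivity

theorem lang_anti (ε : ℝ) (hε : 0 < ε) : Antitone (lang ε) := by
  intro m n hmn
  unfold lang
  have h1 := log_max_pos m
  have h2 := max_pos m
  have h3 : ((max m 2 : ℕ) : ℝ) ≤ ((max n 2 : ℕ) : ℝ) := by
    have : max m 2 ≤ max n 2 := by omega
    exact_mod_cast this
  apply one_div_le_one_div_of_le (by positivity)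
  refine mul_le_mul h3 ?_ (by positivity) (by positivity)
  exact Real.rpow_le_rpow h1.le (Real.log_le_log h2 h3) (by linarith)

theorem lang_summable (ε : ℝ) (hε : 0 < ε) : Summable (lang ε) := by
  rw [← summable_condensed_iff_of_nonneg (lang_nonneg ε)]
  · have h1 : (0 : ℝ) < Real.log 2 := Real.log_pos (by norm_num)
    rw [← summable_nat_add_iff 1]
    have h2 : Summable (fun k : ℕ => (Real.log 2 ^ (1 + ε))⁻¹ * (((k + 1 : ℕ) : ℝ) ^ (1 + ε))⁻¹) := by
      apply Summable.mul_left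
      exact (summable_nat_add_iff 1).mpr (Real.summable_nat_rpow_inv.mpr (by linarith))
    refine h2.congr fun k => ?_
    have e1 : max (2 ^ (k + 1)) 2 = 2 ^ (k + 1) := by
      have : (2 : ℕ) ^ 1 ≤ 2 ^ (k + 1) := Nat.pow_le_pow_right (by norm_num) (by omega)
      omega
    unfold lang
    rw [e1]
    push_cast
    rw [Real.log_pow]
    push_cast
    rw [Real.mul_rpow (by positivity) h1.le]
    have e2 : (0 : ℝ) < (2 : ℝ) ^ (k + 1) := by positivity
    field_simp
  · intro m n _ hmn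
    exact lang_anti ε hε hmn

theorem lang_eq (ε : ℝ) (q : ℕ) (hq : 2 ≤ q) :
    lang ε q / q = 1 / ((q : ℝ) ^ 2 * Real.log q ^ (1 + ε)) := by
  unfold lang
  rw [max_eq_left hq]
  rw [div_div]
  congr 1
  ring

end Pool.Agent.N965.LN
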