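import Pool.Agent.N965.LN.Stm

set_option autoImplicit false

open Finset Filter Topology

namespace Pool.Agent.N965.LN

theorem KK_nonneg (H : ℕ) (x : ℝ) : 0 ≤ KK H x := by
  unfold KK
  split_ifs
  · positivity
  · exact le_min (by positivity) (by positivity)

theorem card_box_le (m H : ℕ) (hH : 1 ≤ H) : ((box m H).card : ℝ) ≤ (3 * (H : ℝ)) ^ m := by
  have h1 : (box m H).card = (2 * H + 1) ^ m := by
    unfold box
    rw [Fintype.card_piFinset_const, Int.card_Icc]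
    congr 1
    omega
  have hH' : (1 : ℝ) ≤ H := by exact_mod_cast hH
  rw [h1]
  push_cast
  exact pow_le_pow_left₀ (by positivity) (by linarith) m

/-- the numerators for which the number is close to a fraction with the denominator `q` -/
noncomputable def Viol {m : ℕ} (ξ : Fin m → ℝ) (H q b : ℕ) (δ : ℝ) : Finset (ℤ × (Fin m → ℤ)) :=
  ((Icc (-(H : ℤ)) H) ×ˢ box m H).filter fun x => dn ((q : ℝ) * num ξ b x.1 x.2) ≤ δ

theorem card_viol_eq {m : ℕ} (ξ : Fin m → ℝ) (H q b : ℕ) (δ : ℝ) :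
    (Viol ξ H q b δ).card = ∑ a ∈ box m H, ((Icc (-(H : ℤ)) H).filter fun a₀ : ℤ =>
      dn ((q : ℝ) * (((a₀ : ℝ) + ∑ i, (a i : ℝ) * ξ i) / b)) ≤ δ).card := by
  classical
  unfold Viol
  simp_rw [Finset.card_filter]
  rw [Finset.sum_product_right]
  rfl

/-- the kernel sum -/
noncomputable def Sv {m : ℕ} (ξ : Fin m → ℝ) (H : ℕ) (ρ : ℝ) (t : ℕ) : ℝ :=
  ∑ v ∈ Icc 1 ⌊1 / (2 * ρ)⌋₊, ∏ i, KK H (((v * t : ℕ) : ℝ) * ξ i)

theorem Sv_nonneg {m : ℕ} (ξ : Fin m → ℝ) (H : ℕ) (ρ : ℝ) (t : ℕ) : 0 ≤ Sv ξ H ρ t :=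
  Finset.sum_nonneg fun _ _ => Finset.prod_nonneg fun _ _ => KK_nonneg _ _

theorem card_viol (hRES : S_RES) (hFEJ : S_FEJ) {m : ℕ} (ξ : Fin m → ℝ) (H q b : ℕ) (δ : ℝ)
    (hb : 1 ≤ b) (hbH : b ≤ H) (hq : 1 ≤ q) (hδ : 0 < δ) :
    ((Viol ξ H q b δ).card : ℝ) ≤ 16 * H * δ * (3 * (H : ℝ)) ^ m +
      (40 * H * δ * (4 * (H : ℝ)) ^ m +
        80 * H * δ * Sv ξ H (((b / Nat.gcd b q : ℕ) : ℝ) * δ) (q / Nat.gcd b q)) := by
  classical
  have hH : 1 ≤ H := hb.trans hbH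
  have hH' : (1 : ℝ) ≤ H := by exact_mod_cast hH
  set g := Nat.gcd b q with hg
  have hg1 : 0 < g := Nat.gcd_pos_of_pos_left q hb
  have hb' : 1 ≤ b / g := Nat.div_pos (Nat.le_of_dvd hb (Nat.gcd_dvd_left b q)) hg1
  have hb'' : (0 : ℝ) < ((b / g : ℕ) : ℝ) := by exact_mod_cast hb'
  have hS := Sv_nonneg ξ H (((b / g : ℕ) : ℝ) * δ) (q / g)
  rw [card_viol_eq]
  push_cast
  have h1 : ∀ a ∈ box m H, ((((Icc (-(H : ℤ)) H).filter fun a₀ : ℤ =>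
      dn ((q : ℝ) * (((a₀ : ℝ) + ∑ i, (a i : ℝ) * ξ i) / b)) ≤ δ).card : ℕ) : ℝ) ≤
      16 * H * δ + if dn (((q / g : ℕ) : ℝ) * ∑ i, (a i : ℝ) * ξ i) ≤ ((b / g : ℕ) : ℝ) * δ ∧
      ((b / g : ℕ) : ℝ) * δ < 1 / 2 then 4 * H / ((b / g : ℕ) : ℝ) else 0 :=
    fun a _ => hRES _ δ b q H hb hbH hq hδ
  refine (Finset.sum_le_sum h1).trans ?_
  rw [Finset.sum_add_distrib, Finset.sum_const, nsmul_eq_mul]
  have h2 : ((box m H).card : ℝ) * (16 * H * δ) ≤ 16 * H * δ * (3 * (H : ℝ)) ^ m := by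
    rw [mul_comm]
    exact mul_le_mul_of_nonneg_left (card_box_le m H hH) (by positivity)
  refine add_le_add h2 ?_
  by_cases hρ : ((b / g : ℕ) : ℝ) * δ < 1 / 2
  · simp only [hρ, and_true]
    rw [← Finset.sum_filter, Finset.sum_const, nsmul_eq_mul]
    have h3 := hFEJ m H (fun i => ((q / g : ℕ) : ℝ) * ξ i) (((b / g : ℕ) : ℝ) * δ) hH
      (by positivity) hρ.le
    have h4 : ((box m H).filter fun a =>
        dn (((q / g : ℕ) : ℝ) * ∑ i, (a i : ℝ) * ξ i) ≤ ((b / g : ℕ) : ℝ) * δ) =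
        ((box m H).filter fun a =>
        dn (∑ i, (a i : ℝ) * (((q / g : ℕ) : ℝ) * ξ i)) ≤ ((b / g : ℕ) : ℝ) * δ) := by
      refine Finset.filter_congr fun a _ => ?_
      have : ((q / g : ℕ) : ℝ) * ∑ i, (a i : ℝ) * ξ i =
          ∑ i, (a i : ℝ) * (((q / g : ℕ) : ℝ) * ξ i) := by
        rw [Finset.mul_sum]
        exact Finset.sum_congr rfl fun i _ => by ring
      rw [this]
    rw [h4]
    have h5 : ∑ v ∈ Icc 1 ⌊1 / (2 * (((b / g : ℕ) : ℝ) * δ))⌋₊,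
        ∏ i, KK H ((v : ℝ) * (((q / g : ℕ) : ℝ) * ξ i)) =
        Sv ξ H (((b / g : ℕ) : ℝ) * δ) (q / g) := by
      unfold Sv
      refine Finset.sum_congr rfl fun v _ => Finset.prod_congr rfl fun i _ => ?_
      congr 1
      rw [Nat.cast_mul]
      ring
    rw [h5] at h3
    have h6 : (0 : ℝ) ≤ 4 * H / ((b / g : ℕ) : ℝ) := by positivity
    refine (mul_le_mul_of_nonneg_right h3 h6).trans (le_of_eq ?_)
    have h7 : ((b / g : ℕ) : ℝ) ≠ 0 := hb''.ne'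
    generalize ((b / g : ℕ) : ℝ) = B at *
    field_simp
    ring
  · simp only [hρ, and_false, if_false, Finset.sum_const_zero]
    positivity

end Pool.Agent.N965.LN
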