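import Pool.Agent.N965.LN.Asm1

set_option autoImplicit false

open Finset Filter Topology

namespace Pool.Agent.N965.LN

theorem sum_viol (hRES : S_RES) (hFEJ : S_FEJ) (hINJ : S_INJ) (hPSI : S_PSI) {m : ℕ}
    (ξ : Fin m → ℝ) (ψ : ℕ → ℝ) (hψ0 : ∀ n, 0 < ψ n) (hψ : Antitone ψ) (hs : Summable ψ)
    (c : ℝ) (hc : 0 < c) (H X : ℕ) (E : ℝ)
    (hE : ∑ g ∈ Icc 1 H, ∑ b ∈ Icc 1 (H / g), ∑ t ∈ Icc 1 (X / g), (H : ℝ) * ψ (g * t) *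
      (∑ v ∈ Icc 1 ⌊1 / (2 * ((b : ℝ) * (c * ψ (g * t))))⌋₊,
        ∏ i, KK H (((v * t : ℕ) : ℝ) * ξ i)) ≤ E) :
    ∑ q ∈ Icc 1 X, ∑ b ∈ Icc 1 H, ((Viol ξ H q b (c * ψ q)).card : ℝ) ≤
      (16 * 3 ^ m + 80 * 4 ^ m) * c * (∑' n, ψ n) * (H : ℝ) ^ (m + 2) + 80 * c * E := by
  classical
  set Ψ := ∑' n, ψ n with hΨ
  set Φ : ℕ → ℕ → ℕ → ℝ := fun g b t => 40 * H * (c * ψ (g * t)) * (4 * (H : ℝ)) ^ m +
    80 * H * (c * ψ (g * t)) * Sv ξ H ((b : ℝ) * (c * ψ (g * t))) t with hΦ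
  have hΦ0 : ∀ g b t, 0 ≤ Φ g b t := by
    intro g b t
    have h1 := hψ0 (g * t)
    have h2 := Sv_nonneg ξ H ((b : ℝ) * (c * ψ (g * t))) t
    simp only [hΦ]
    positivity
  have h1 : ∀ q ∈ Icc 1 X, ∀ b ∈ Icc 1 H, ((Viol ξ H q b (c * ψ q)).card : ℝ) ≤
      16 * H * (c * ψ q) * (3 * (H : ℝ)) ^ m +
        Φ (Nat.gcd b q) (b / Nat.gcd b q) (q / Nat.gcd b q) := by
    intro q hq b hb
    rw [mem_Icc] at hq hb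
    have h2 := card_viol hRES hFEJ ξ H q b (c * ψ q) hb.1 hb.2 hq.1 (mul_pos hc (hψ0 q))
    have h3 : Nat.gcd b q * (q / Nat.gcd b q) = q := Nat.mul_div_cancel' (Nat.gcd_dvd_right b q)
    simp only [hΦ]
    rw [h3]
    exact h2
  have h2 : ∑ q ∈ Icc 1 X, ∑ b ∈ Icc 1 H, ((Viol ξ H q b (c * ψ q)).card : ℝ) ≤
      ∑ q ∈ Icc 1 X, ∑ b ∈ Icc 1 H, 16 * H * (c * ψ q) * (3 * (H : ℝ)) ^ m +
      ∑ q ∈ Icc 1 X, ∑ b ∈ Icc 1 H,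
        Φ (Nat.gcd b q) (b / Nat.gcd b q) (q / Nat.gcd b q) := by
    rw [← Finset.sum_add_distrib]
    refine Finset.sum_le_sum fun q hq => ?_
    rw [← Finset.sum_add_distrib]
    exact Finset.sum_le_sum fun b hb => h1 q hq b hb
  have h3 : ∑ q ∈ Icc 1 X, ∑ b ∈ Icc 1 H, 16 * H * (c * ψ q) * (3 * (H : ℝ)) ^ m ≤
      16 * 3 ^ m * c * Ψ * (H : ℝ) ^ (m + 2) := by
    have h4 : ∑ q ∈ Icc 1 X, ψ q ≤ Ψ := hs.sum_le_tsum _ fun n _ => (hψ0 n).le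
    have h5 : ∑ q ∈ Icc 1 X, ∑ b ∈ Icc 1 H, 16 * H * (c * ψ q) * (3 * (H : ℝ)) ^ m =
        16 * 3 ^ m * c * (H : ℝ) ^ (m + 2) * ∑ q ∈ Icc 1 X, ψ q := by
      rw [Finset.mul_sum]
      refine Finset.sum_congr rfl fun q _ => ?_
      rw [Finset.sum_const, nsmul_eq_mul, Nat.card_Icc, mul_pow]
      simp only [Nat.add_sub_cancel]
      ring
    rw [h5]
    have h6 : (0 : ℝ) ≤ 16 * 3 ^ m * c * (H : ℝ) ^ (m + 2) := by positivity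
    calc _ ≤ 16 * 3 ^ m * c * (H : ℝ) ^ (m + 2) * Ψ := mul_le_mul_of_nonneg_left h4 h6
      _ = _ := by ring
  have h4 : ∑ g ∈ Icc 1 H, ∑ b ∈ Icc 1 (H / g), ∑ t ∈ Icc 1 (X / g), Φ g b t =
      ∑ g ∈ Icc 1 H, ∑ b ∈ Icc 1 (H / g), ∑ t ∈ Icc 1 (X / g),
        40 * H * (c * ψ (g * t)) * (4 * (H : ℝ)) ^ m +
      80 * c * ∑ g ∈ Icc 1 H, ∑ b ∈ Icc 1 (H / g), ∑ t ∈ Icc 1 (X / g), (H : ℝ) * ψ (g * t) *
        (∑ v ∈ Icc 1 ⌊1 / (2 * ((b : ℝ) * (c * ψ (g * t))))⌋₊,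
          ∏ i, KK H (((v * t : ℕ) : ℝ) * ξ i)) := by
    rw [Finset.mul_sum, ← Finset.sum_add_distrib]
    refine Finset.sum_congr rfl fun g _ => ?_
    rw [Finset.mul_sum, ← Finset.sum_add_distrib]
    refine Finset.sum_congr rfl fun b _ => ?_
    rw [Finset.mul_sum, ← Finset.sum_add_distrib]
    refine Finset.sum_congr rfl fun t _ => ?_
    simp only [hΦ, Sv]
    ring
  have h5 : ∑ g ∈ Icc 1 H, ∑ b ∈ Icc 1 (H / g), ∑ t ∈ Icc 1 (X / g),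
        40 * H * (c * ψ (g * t)) * (4 * (H : ℝ)) ^ m ≤
      80 * 4 ^ m * c * Ψ * (H : ℝ) ^ (m + 2) := by
    have h6 : ∑ g ∈ Icc 1 H, ∑ b ∈ Icc 1 (H / g), ∑ t ∈ Icc 1 (X / g),
        40 * H * (c * ψ (g * t)) * (4 * (H : ℝ)) ^ m ≤
        40 * 4 ^ m * c * (H : ℝ) ^ (m + 2) *
          ∑ g ∈ Icc 1 H, 1 / (g : ℝ) * ∑ t ∈ Icc 1 (X / g), ψ (g * t) := by
      rw [Finset.mul_sum]
      refine Finset.sum_le_sum fun g hg => ?_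
      rw [mem_Icc] at hg
      have hg0 : (0 : ℝ) < g := by exact_mod_cast hg.1
      rw [Finset.sum_const, nsmul_eq_mul, Nat.card_Icc]
      simp only [Nat.add_sub_cancel]
      have h7 : ((H / g : ℕ) : ℝ) ≤ (H : ℝ) / g := Nat.cast_div_le
      have h8 : ∑ t ∈ Icc 1 (X / g), 40 * H * (c * ψ (g * t)) * (4 * (H : ℝ)) ^ m =
          40 * 4 ^ m * c * (H : ℝ) ^ (m + 1) * ∑ t ∈ Icc 1 (X / g), ψ (g * t) := by
        rw [Finset.mul_sum]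
        refine Finset.sum_congr rfl fun t _ => ?_
        rw [mul_pow]
        ring
      rw [h8]
      have h9 : 0 ≤ ∑ t ∈ Icc 1 (X / g), ψ (g * t) :=
        Finset.sum_nonneg fun t _ => (hψ0 _).le
      have h10 : 0 ≤ 40 * 4 ^ m * c * (H : ℝ) ^ (m + 1) * ∑ t ∈ Icc 1 (X / g), ψ (g * t) := by
        positivity
      refine (mul_le_mul_of_nonneg_right h7 h10).trans (le_of_eq ?_)
      field_simp
      ring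
    refine h6.trans ?_
    have h7 := (hPSI ψ (fun n => (hψ0 n).le) hψ hs).2 H X
    have h8 : (0 : ℝ) ≤ 40 * 4 ^ m * c * (H : ℝ) ^ (m + 2) := by positivity
    refine (mul_le_mul_of_nonneg_left h7 h8).trans (le_of_eq ?_)
    ring
  have h6 := hINJ X H Φ hΦ0
  have h7 : 80 * c * (∑ g ∈ Icc 1 H, ∑ b ∈ Icc 1 (H / g), ∑ t ∈ Icc 1 (X / g),
      (H : ℝ) * ψ (g * t) * (∑ v ∈ Icc 1 ⌊1 / (2 * ((b : ℝ) * (c * ψ (g * t))))⌋₊,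
        ∏ i, KK H (((v * t : ℕ) : ℝ) * ξ i))) ≤ 80 * c * E :=
    mul_le_mul_of_nonneg_left hE (by positivity)
  linarith

/-- the bad triples -/
noncomputable def Bad {m : ℕ} (ξ : Fin m → ℝ) (ψ : ℕ → ℝ) (H : ℕ) (Y c : ℝ) :
    Set (ℕ × (ℤ × (Fin m → ℤ))) :=
  {x | 1 ≤ x.1 ∧ x.1 ≤ H ∧ x.2.1 ∈ Icc (-(H : ℤ)) H ∧ x.2.2 ∈ box m H ∧ x.2.2 ≠ 0 ∧
    ∃ (p : ℤ) (q : ℕ), 1 ≤ q ∧ (q : ℝ) ≤ Y ∧ |num ξ x.1 x.2.1 x.2.2 - (p : ℝ) / q| ≤ c * ψ q / q}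

theorem dn_le (x : ℝ) (p : ℤ) : dn x ≤ |x - p| := round_le x p

theorem bad_sub {m : ℕ} (ξ : Fin m → ℝ) (ψ : ℕ → ℝ) (H X : ℕ) (Y c : ℝ) (hX : ⌊Y⌋₊ ≤ X) :
    Bad ξ ψ H Y c ⊆ (((Icc 1 X).biUnion fun q => (Icc 1 H).biUnion fun b =>
      (Viol ξ H q b (c * ψ q)).image fun x => (b, x) : Finset (ℕ × (ℤ × (Fin m → ℤ)))) :
        Set (ℕ × (ℤ × (Fin m → ℤ)))) := by
  rintro ⟨b, a₀, a⟩ ⟨h1, h2, h3, h4, h5, p, q, h6, h7, h8⟩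
  simp only at h1 h2 h3 h4 h5 h8
  rw [Finset.mem_coe, Finset.mem_biUnion]
  refine ⟨q, mem_Icc.2 ⟨h6, (Nat.le_floor h7).trans hX⟩, ?_⟩
  rw [Finset.mem_biUnion]
  refine ⟨b, mem_Icc.2 ⟨h1, h2⟩, ?_⟩
  rw [Finset.mem_image]
  refine ⟨(a₀, a), ?_, rfl⟩
  unfold Viol
  rw [Finset.mem_filter, Finset.mem_product]
  refine ⟨⟨h3, h4⟩, ?_⟩
  have hq : (0 : ℝ) < q := by exact_mod_cast h6
  refine (dn_le _ p).trans ?_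
  have h9 : (q : ℝ) * num ξ b a₀ a - p = q * (num ξ b a₀ a - (p : ℝ) / q) := by
    field_simp
  simp only
  rw [h9, abs_mul, abs_of_pos hq]
  have h10 := mul_le_mul_of_nonneg_left h8 hq.le
  refine h10.trans (le_of_eq ?_)
  field_simp

theorem bad_card {m : ℕ} (ξ : Fin m → ℝ) (ψ : ℕ → ℝ) (H X : ℕ) (Y c : ℝ) (hX : ⌊Y⌋₊ ≤ X) :
    (Bad ξ ψ H Y c).Finite ∧ ((Bad ξ ψ H Y c).ncard : ℝ) ≤
      ∑ q ∈ Icc 1 X, ∑ b ∈ Icc 1 H, ((Viol ξ H q b (c * ψ q)).card : ℝ) := by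
  classical
  have h1 := bad_sub ξ ψ H X Y c hX
  refine ⟨(Finset.finite_toSet _).subset h1, ?_⟩
  have h2 := Set.ncard_le_ncard h1 (Finset.finite_toSet _)
  rw [Set.ncard_coe_finset] at h2
  have h3 : ((Icc 1 X).biUnion fun q => (Icc 1 H).biUnion fun b =>
      (Viol ξ H q b (c * ψ q)).image fun x => (b, x)).card ≤
      ∑ q ∈ Icc 1 X, ∑ b ∈ Icc 1 H, (Viol ξ H q b (c * ψ q)).card := by
    refine Finset.card_biUnion_le.trans (Finset.sum_le_sum fun q _ => ?_)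
    refine Finset.card_biUnion_le.trans (Finset.sum_le_sum fun b _ => ?_)
    exact Finset.card_image_le
  have h4 := h2.trans h3
  exact_mod_cast h4

theorem bad_mono {m : ℕ} (ξ : Fin m → ℝ) (ψ ψ' : ℕ → ℝ) (H : ℕ) (Y Y' c c' : ℝ)
    (hY : Y ≤ Y') (hc : c ≤ c') (hc0 : 0 ≤ c') (hψ' : ∀ n, 0 ≤ ψ n) (hψ : ∀ n, ψ n ≤ ψ' n) :
    Bad ξ ψ H Y c ⊆ Bad ξ ψ' H Y' c' := by
  rintro ⟨b, a₀, a⟩ ⟨h1, h2, h3, h4, h5, p, q, h6, h7, h8⟩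
  refine ⟨h1, h2, h3, h4, h5, p, q, h6, h7.trans hY, h8.trans ?_⟩
  have hq : (0 : ℝ) < q := by exact_mod_cast h6
  refine div_le_div_of_nonneg_right ?_ hq.le
  exact (mul_le_mul_of_nonneg_right hc (hψ' q)).trans (mul_le_mul_of_nonneg_left (hψ q) hc0)

end Pool.Agent.N965.LN
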