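import Pool.Agent.N965.LN.Asm2

set_option autoImplicit false

open Finset Filter Topology

namespace Pool.Agent.N965.LN

theorem small_empty (hSMALL : S_SMALL) {m : ℕ} (ξ : Fin m → ℝ) (hind : Indep ξ)
    (ψ : ℕ → ℝ) (hψ0 : ∀ n, 0 ≤ ψ n) (H₀ : ℕ) (κ κ' : ℝ) (hκ : κ ≤ κ') (hκ' : 0 ≤ κ') :
    ∃ c : ℝ, 0 < c ∧ ∀ c' : ℝ, c' ≤ c → ∀ H : ℕ, 1 ≤ H → H ≤ H₀ →
      Bad ξ ψ H ((H : ℝ) ^ κ) c' = ∅ := by
  obtain ⟨c, hc, h⟩ := hSMALL m ξ hind ψ H₀ ⌊(H₀ : ℝ) ^ κ'⌋₊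
  refine ⟨c, hc, fun c' hc' H hH hH₀ => ?_⟩
  rw [Set.eq_empty_iff_forall_notMem]
  rintro ⟨b, a₀, a⟩ ⟨h1, h2, h3, h4, h5, p, q, h6, h7, h8⟩
  simp only at h1 h2 h3 h4 h5 h8
  have hH' : (1 : ℝ) ≤ H := by exact_mod_cast hH
  have h9 : q ≤ ⌊(H₀ : ℝ) ^ κ'⌋₊ := by
    apply Nat.le_floor
    refine h7.trans ((Real.rpow_le_rpow_of_exponent_le hH' hκ).trans ?_)
    exact Real.rpow_le_rpow (by positivity) (by exact_mod_cast hH₀) hκ'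
  have h10 : a₀ ∈ Icc (-(H₀ : ℤ)) H₀ := by
    rw [mem_Icc] at h3 ⊢
    omega
  have h11 : a ∈ box m H₀ := by
    unfold box at h4 ⊢
    rw [Fintype.mem_piFinset] at h4 ⊢
    intro i
    have := h4 i
    rw [mem_Icc] at this ⊢
    omega
  have h12 := h b a₀ a h1 (h2.trans hH₀) h10 h11 h5 p q h6 h9
  have hq : (0 : ℝ) < q := by exact_mod_cast h6
  have h13 : c' * ψ q / q ≤ c * ψ q / q :=
    div_le_div_of_nonneg_right (mul_le_mul_of_nonneg_right hc' (hψ0 q)) hq.le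
  linarith

theorem main (hRES : S_RES) (hFEJ : S_FEJ) (hINJ : S_INJ) (hPSI : S_PSI) (hERR : S_ERR)
    (hSMALL : S_SMALL) {m : ℕ} (ξ : Fin m → ℝ) (hind : Indep ξ) (hFT : FT ξ) (κ : ℝ)
    (hκ : κ < m + 1) (ψ : ℕ → ℝ) (hψ0 : ∀ n, 0 ≤ ψ n) (hψ : Antitone ψ) (hs : Summable ψ)
    (η : ℝ) (hη : 0 < η) :
    ∃ c : ℝ, 0 < c ∧ ∀ H : ℕ, 1 ≤ H → (Bad ξ ψ H ((H : ℝ) ^ κ) c).Finite ∧
      ((Bad ξ ψ H ((H : ℝ) ^ κ) c).ncard : ℝ) ≤ η * (H : ℝ) ^ (m + 2) := by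
  set κ' := max κ 0 with hκ'
  have hκ0 : 0 ≤ κ' := le_max_right _ _
  have hκκ : κ ≤ κ' := le_max_left _ _
  have hm0 : (0 : ℝ) ≤ m := Nat.cast_nonneg m
  have hκm : κ' < m + 1 := max_lt hκ (by linarith)
  set τ := min 1 (((m : ℝ) + 1 - κ') / (2 * (1 + 4 * κ'))) with hτ
  have hτ0 : 0 < τ := lt_min one_pos (div_pos (by linarith) (by positivity))
  have hτ1 : τ ≤ 1 := min_le_left _ _
  have hτ2 : τ * (1 + 4 * κ') ≤ ((m : ℝ) + 1 - κ') / 2 := by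
    have h1 : τ ≤ ((m : ℝ) + 1 - κ') / (2 * (1 + 4 * κ')) := min_le_right _ _
    have h2 : 0 < 1 + 4 * κ' := by positivity
    calc τ * (1 + 4 * κ') ≤ ((m : ℝ) + 1 - κ') / (2 * (1 + 4 * κ')) * (1 + 4 * κ') :=
          mul_le_mul_of_nonneg_right h1 h2.le
      _ = ((m : ℝ) + 1 - κ') / 2 := by field_simp
  set e := ((m : ℝ) + 3 + κ') / 2 with he
  have he1 : 1 + τ + κ' * (1 + 4 * τ) ≤ e := by
    have : 1 + τ + κ' * (1 + 4 * τ) = 1 + κ' + τ * (1 + 4 * κ') := by ring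
    rw [this, he]
    linarith
  have he2 : 0 < (m : ℝ) + 2 - e := by
    rw [he]
    linarith
  set φ : ℕ → ℝ := fun n => ((n : ℝ) + 1) ^ (-(1 + τ)) with hφ
  have hφ0 : ∀ n, 0 < φ n := fun n => by
    simp only [hφ]
    positivity
  have hφa : Antitone φ := by
    intro a b hab
    simp only [hφ]
    apply Real.rpow_le_rpow_of_nonpos (by positivity) _ (by linarith)
    have : (a : ℝ) ≤ b := by exact_mod_cast hab
    linarith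
  have hφs : Summable φ := by
    have h1 : Summable (fun n : ℕ => ((n : ℝ)) ^ (-(1 + τ))) :=
      Real.summable_nat_rpow.2 (by linarith)
    have h2 := (summable_nat_add_iff 1).2 h1
    refine h2.congr fun n => ?_
    simp only [hφ]
    push_cast
    rfl
  set ψ' : ℕ → ℝ := fun n => ψ n + φ n with hψ'
  have hψ'0 : ∀ n, 0 < ψ' n := fun n => by
    have h1 := hφ0 n
    have h2 := hψ0 n
    simp only [hψ']
    linarith
  have hψ'a : Antitone ψ' := fun a b hab => add_le_add (hψ hab) (hφa hab)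
  have hψ's : Summable ψ' := hs.add hφs
  set Ψ := ∑' n, ψ' n with hΨ
  have hΨ0 : 0 < Ψ := hψ's.tsum_pos (fun n => (hψ'0 n).le) 0 (hψ'0 0)
  have hD : ∀ n : ℕ, 1 ≤ n → (n : ℝ) ^ (-(1 + τ)) ≤ (2 : ℝ) ^ (1 + τ) * ψ' n := by
    intro n hn
    have hn' : (1 : ℝ) ≤ n := by exact_mod_cast hn
    have h1 : (2 * (n : ℝ)) ^ (-(1 + τ)) ≤ φ n := by
      simp only [hφ]
      exact Real.rpow_le_rpow_of_nonpos (by positivity) (by linarith) (by linarith)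
    have h2 : (2 * (n : ℝ)) ^ (-(1 + τ)) = (2 : ℝ) ^ (-(1 + τ)) * (n : ℝ) ^ (-(1 + τ)) :=
      Real.mul_rpow (by norm_num) (by positivity)
    have h3 : (2 : ℝ) ^ (1 + τ) * (2 : ℝ) ^ (-(1 + τ)) = 1 := by
      rw [← Real.rpow_add (by norm_num)]
      simp
    have h4 : (0 : ℝ) < (2 : ℝ) ^ (1 + τ) := by positivity
    calc (n : ℝ) ^ (-(1 + τ)) = (2 : ℝ) ^ (1 + τ) * (2 * (n : ℝ)) ^ (-(1 + τ)) := by
          rw [h2, ← mul_assoc, h3, one_mul]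
      _ ≤ (2 : ℝ) ^ (1 + τ) * φ n := mul_le_mul_of_nonneg_left h1 h4.le
      _ ≤ (2 : ℝ) ^ (1 + τ) * ψ' n := by
          refine mul_le_mul_of_nonneg_left ?_ h4.le
          have := hψ0 n
          simp only [hψ']
          linarith
  set B : ℝ := 16 * 3 ^ m + 80 * 4 ^ m with hB
  have hB0 : 0 < B := by positivity
  set c₁ := η / (2 * B * Ψ) with hc₁
  have hc₁0 : 0 < c₁ := by positivity
  have hBc : B * c₁ * Ψ = η / 2 := by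
    rw [hc₁]
    field_simp
  obtain ⟨C, hC, hE⟩ := hERR m ξ hFT τ hτ0 hτ1 ψ' hψ'0 hψ'a hψ's ((2 : ℝ) ^ (1 + τ))
    (by positivity) hD c₁ hc₁0
  obtain ⟨H₀, hH₀⟩ : ∃ H₀ : ℕ, ∀ H : ℕ, H₀ ≤ H →
      80 * c₁ * C / (η / 2) ≤ (H : ℝ) ^ ((m : ℝ) + 2 - e) := by
    have h1 := ((tendsto_rpow_atTop he2).comp tendsto_natCast_atTop_atTop).eventually_ge_atTop
      (80 * c₁ * C / (η / 2))
    exact Filter.eventually_atTop.1 h1
  obtain ⟨c₂, hc₂0, hc₂⟩ := small_empty hSMALL ξ hind ψ hψ0 H₀ κ κ' hκκ hκ0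
  refine ⟨min c₁ c₂, lt_min hc₁0 hc₂0, fun H hH => ?_⟩
  rcases le_total H H₀ with hle | hle
  · rw [hc₂ (min c₁ c₂) (min_le_right _ _) H hH hle]
    refine ⟨Set.finite_empty, ?_⟩
    rw [Set.ncard_empty]
    simp only [Nat.cast_zero]
    positivity
  have hH' : (1 : ℝ) ≤ H := by exact_mod_cast hH
  have hHp : (0 : ℝ) < H := by linarith
  set X := ⌊(H : ℝ) ^ κ'⌋₊ with hX
  have hX1 : 1 ≤ X := by
    apply Nat.le_floor
    rw [Nat.cast_one]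
    exact Real.one_le_rpow hH' hκ0
  have hXle : (X : ℝ) ≤ (H : ℝ) ^ κ' := Nat.floor_le (by positivity)
  have hsub : Bad ξ ψ H ((H : ℝ) ^ κ) (min c₁ c₂) ⊆ Bad ξ ψ' H ((H : ℝ) ^ κ') c₁ := by
    refine bad_mono ξ ψ ψ' H _ _ _ _ (Real.rpow_le_rpow_of_exponent_le hH' hκκ)
      (min_le_left _ _) hc₁0.le hψ0 fun n => ?_
    have := hφ0 n
    simp only [hψ']
    linarith
  obtain ⟨hfin, hcard⟩ := bad_card ξ ψ' H X ((H : ℝ) ^ κ') c₁ le_rfl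
  refine ⟨hfin.subset hsub, ?_⟩
  have h1 : ((Bad ξ ψ H ((H : ℝ) ^ κ) (min c₁ c₂)).ncard : ℝ) ≤
      ((Bad ξ ψ' H ((H : ℝ) ^ κ') c₁).ncard : ℝ) := by
    exact_mod_cast Set.ncard_le_ncard hsub hfin
  have h2 := sum_viol hRES hFEJ hINJ hPSI ξ ψ' hψ'0 hψ'a hψ's c₁ hc₁0 H X _ (hE H X hH hX1)
  have h3 : (X : ℝ) ^ (1 + 4 * τ) ≤ (H : ℝ) ^ (κ' * (1 + 4 * τ)) := by
    rw [Real.rpow_mul hHp.le]
    exact Real.rpow_le_rpow (by positivity) hXle (by positivity)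
  have h4 : C * (H : ℝ) ^ (1 + τ) * (X : ℝ) ^ (1 + 4 * τ) ≤ C * (H : ℝ) ^ e := by
    calc C * (H : ℝ) ^ (1 + τ) * (X : ℝ) ^ (1 + 4 * τ) ≤
          C * (H : ℝ) ^ (1 + τ) * (H : ℝ) ^ (κ' * (1 + 4 * τ)) :=
          mul_le_mul_of_nonneg_left h3 (by positivity)
      _ = C * (H : ℝ) ^ (1 + τ + κ' * (1 + 4 * τ)) := by
          rw [Real.rpow_add hHp (1 + τ), mul_assoc]
      _ ≤ C * (H : ℝ) ^ e :=
          mul_le_mul_of_nonneg_left (Real.rpow_le_rpow_of_exponent_le hH' he1) hC.le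
  have h5 : 80 * c₁ * (C * (H : ℝ) ^ e) ≤ η / 2 * (H : ℝ) ^ (m + 2) := by
    have h6 := hH₀ H hle
    rw [div_le_iff₀ (by positivity)] at h6
    have h7 : (H : ℝ) ^ (m + 2) = (H : ℝ) ^ ((m : ℝ) + 2 - e) * (H : ℝ) ^ e := by
      rw [← Real.rpow_add hHp, ← Real.rpow_natCast]
      congr 1
      push_cast
      ring
    rw [h7]
    have h8 : (0 : ℝ) ≤ (H : ℝ) ^ e := by positivity
    calc 80 * c₁ * (C * (H : ℝ) ^ e) = (80 * c₁ * C) * (H : ℝ) ^ e := by ring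
      _ ≤ ((H : ℝ) ^ ((m : ℝ) + 2 - e) * (η / 2)) * (H : ℝ) ^ e :=
          mul_le_mul_of_nonneg_right h6 h8
      _ = _ := by ring
  have h6 : 80 * c₁ * (C * (H : ℝ) ^ (1 + τ) * (X : ℝ) ^ (1 + 4 * τ)) ≤
      80 * c₁ * (C * (H : ℝ) ^ e) := mul_le_mul_of_nonneg_left h4 (by positivity)
  have h7 : B * c₁ * Ψ * (H : ℝ) ^ (m + 2) = η / 2 * (H : ℝ) ^ (m + 2) := by rw [hBc]
  calc ((Bad ξ ψ H ((H : ℝ) ^ κ) (min c₁ c₂)).ncard : ℝ) ≤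
        B * c₁ * Ψ * (H : ℝ) ^ (m + 2) +
          80 * c₁ * (C * (H : ℝ) ^ (1 + τ) * (X : ℝ) ^ (1 + 4 * τ)) :=
        h1.trans (hcard.trans h2)
    _ ≤ η / 2 * (H : ℝ) ^ (m + 2) + η / 2 * (H : ℝ) ^ (m + 2) := by
        rw [h7]
        exact add_le_add le_rfl (h6.trans h5)
    _ = η * (H : ℝ) ^ (m + 2) := by ring

end Pool.Agent.N965.LN
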