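import Pool.Agent.N965.LN.Stm

set_option autoImplicit false

/-!
# Project LN (helper965), part CNT (helper27): counting good simultaneous denominators
-/

open Finset Filter Topology

namespace Pool.Agent.N965.LN

namespace CntL

theorem dn_le (x : ℝ) (z : ℤ) : dn x ≤ |x - z| := round_le x z

theorem dn_nonneg (x : ℝ) : 0 ≤ dn x := abs_nonneg _

theorem dn_sub_le (x y : ℝ) : dn (x - y) ≤ dn x + dn y := by
  refine (dn_le (x - y) (round x - round y)).trans ?_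
  have h : x - y - ((round x - round y : ℤ) : ℝ) = (x - round x) - (y - round y) := by
    push_cast
    ring
  rw [h]
  exact abs_sub _ _

/-- a set of natural numbers with gaps at least `D` -/
theorem card_gap (N : ℕ) (D : ℝ) (hD : 0 < D) (B : Finset ℕ) (h1 : ∀ n ∈ B, D ≤ n ∧ n ≤ N)
    (h2 : ∀ n ∈ B, ∀ n' ∈ B, n < n' → D ≤ (n' : ℝ) - n) : (B.card : ℝ) ≤ N / D := by
  have hinj : Set.InjOn (fun n : ℕ => ⌊(n : ℝ) / D⌋₊) B := by
    have key : ∀ n ∈ B, ∀ n' ∈ B, n < n' → ⌊(n : ℝ) / D⌋₊ < ⌊(n' : ℝ) / D⌋₊ := by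
      intro n hn n' hn' hlt
      have h3 := h2 n hn n' hn' hlt
      have h4 : (n : ℝ) / D + 1 ≤ (n' : ℝ) / D := by
        rw [div_add_one hD.ne']
        apply div_le_div_of_nonneg_right _ hD.le
        linarith
      have h5 : ⌊(n : ℝ) / D + 1⌋₊ ≤ ⌊(n' : ℝ) / D⌋₊ := Nat.floor_mono h4
      rw [Nat.floor_add_one (by positivity)] at h5
      omega
    intro n hn n' hn' he
    rcases lt_trichotomy n n' with h | h | h
    · exact absurd he (key n hn n' hn' h).ne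
    · exact h
    · exact absurd he (key n' hn' n hn h).ne'
  have hsub : B.image (fun n : ℕ => ⌊(n : ℝ) / D⌋₊) ⊆ Icc 1 ⌊(N : ℝ) / D⌋₊ := by
    intro y hy
    rw [mem_image] at hy
    obtain ⟨n, hn, rfl⟩ := hy
    obtain ⟨h3, h4⟩ := h1 n hn
    rw [mem_Icc]
    constructor
    · apply Nat.le_floor
      rw [Nat.cast_one, le_div_iff₀ hD, one_mul]
      exact h3
    · apply Nat.floor_mono
      apply div_le_div_of_nonneg_right _ hD.le
      exact_mod_cast h4
  have hc := card_le_card hsub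
  rw [card_image_of_injOn hinj, Nat.card_Icc, Nat.add_sub_cancel] at hc
  calc (B.card : ℝ) ≤ (⌊(N : ℝ) / D⌋₊ : ℝ) := by exact_mod_cast hc
    _ ≤ N / D := Nat.floor_le (by positivity)

end CntL

theorem t_CNT : S_CNT := by
  intro m ξ hS τ hτ
  obtain ⟨t, ht⟩ : ∃ t : ℝ, t = τ / (m + 1) := ⟨_, rfl⟩
  have ht0 : 0 < t := by
    rw [ht]
    positivity
  have hmt : (m : ℝ) * t ≤ τ := by
    rw [ht, mul_div_assoc', div_le_iff₀ (by positivity)]
    nlinarith
  obtain ⟨c₀, hc₀, hc₁⟩ := hS t ht0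
  obtain ⟨c, hc⟩ : ∃ c : ℝ, c = min c₀ 1 := ⟨_, rfl⟩
  have hc0 : 0 < c := by
    rw [hc]
    exact lt_min hc₀ one_pos
  have hc1 : c ≤ 1 := by
    rw [hc]
    exact min_le_right _ _
  have hcc : c ≤ c₀ := by
    rw [hc]
    exact min_le_left _ _
  refine ⟨2 ^ m / c, by positivity, fun H hH N r hr1 hr2 => ?_⟩
  have hH0 : (0 : ℝ) < H := by exact_mod_cast hH
  have hH1 : (1 : ℝ) ≤ H := by exact_mod_cast hH
  have hr0 : ∀ i, 0 < r i := fun i => lt_of_lt_of_le (by positivity) (hr1 i)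
  obtain ⟨R, hR⟩ : ∃ R : ℝ, R = ∏ i, r i := ⟨_, rfl⟩
  have hR0 : 0 < R := by
    rw [hR]
    exact prod_pos fun i _ => hr0 i
  have hRH : (H : ℝ) ^ (-(m : ℝ)) ≤ R := by
    have h1 : ∏ _i : Fin m, (1 / (H : ℝ)) ≤ ∏ i, r i :=
      prod_le_prod (fun i _ => by positivity) fun i _ => hr1 i
    rw [prod_const, card_univ, Fintype.card_fin] at h1
    rw [hR, Real.rpow_neg hH0.le, Real.rpow_natCast]
    rwa [one_div, inv_pow] at h1
  obtain ⟨P, hP⟩ : ∃ P : ℝ, P = 2 ^ m * R / c := ⟨_, rfl⟩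
  have hP0 : 0 < P := by
    rw [hP]
    positivity
  have hPc : P * c = 2 ^ m * R := by
    rw [hP, div_mul_cancel₀ _ hc0.ne']
  have hPH : (H : ℝ) ^ (-(m : ℝ)) ≤ P := by
    refine hRH.trans ?_
    rw [hP, le_div_iff₀ hc0]
    have h1 : (1 : ℝ) ≤ 2 ^ m := one_le_pow₀ (by norm_num)
    nlinarith
  obtain ⟨D, hD⟩ : ∃ D : ℝ, D = P ^ (-(1 / (1 + t))) := ⟨_, rfl⟩
  have hD0 : 0 < D := by
    rw [hD]
    exact Real.rpow_pos_of_pos hP0 _
  have key : ∀ d : ℕ, 1 ≤ d → (∀ i, dn ((d : ℝ) * ξ i) ≤ 2 * r i) → D ≤ d := by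
    intro d hd hi
    have hd0 : (0 : ℝ) < d := by exact_mod_cast hd
    have h1 : c * (d : ℝ) ^ (-(1 + t)) ≤ 2 ^ m * R := by
      calc c * (d : ℝ) ^ (-(1 + t)) ≤ c₀ * (d : ℝ) ^ (-(1 + t)) :=
            mul_le_mul_of_nonneg_right hcc (Real.rpow_nonneg hd0.le _)
        _ ≤ ∏ i, dn ((d : ℝ) * ξ i) := hc₁ d hd
        _ ≤ ∏ i, (2 * r i) := prod_le_prod (fun i _ => CntL.dn_nonneg _) fun i _ => hi i
        _ = 2 ^ m * R := by
            rw [prod_mul_distrib, prod_const, card_univ, Fintype.card_fin, hR]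
    rw [← hPc, mul_comm] at h1
    have h2 : (d : ℝ) ^ (-(1 + t)) ≤ P := le_of_mul_le_mul_right h1 hc0
    have h3 : P ^ (-(1 / (1 + t))) ≤ ((d : ℝ) ^ (-(1 + t))) ^ (-(1 / (1 + t))) :=
      Real.rpow_le_rpow_of_nonpos (Real.rpow_pos_of_pos hd0 _) h2
        (by
          have : 0 < 1 / (1 + t) := by positivity
          linarith)
    rw [← Real.rpow_mul hd0.le] at h3
    have h4 : -(1 + t) * -(1 / (1 + t)) = 1 := by
      field_simp
    rw [h4, Real.rpow_one] at h3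
    rw [hD]
    exact h3
  obtain ⟨B, hB⟩ : ∃ B, B = (Icc 1 N).filter fun n : ℕ => ∀ i, dn ((n : ℝ) * ξ i) ≤ r i := ⟨_, rfl⟩
  have hBm : ∀ n ∈ B, 1 ≤ n ∧ n ≤ N ∧ ∀ i, dn ((n : ℝ) * ξ i) ≤ r i := by
    intro n hn
    rw [hB, mem_filter, mem_Icc] at hn
    exact ⟨hn.1.1, hn.1.2, hn.2⟩
  have hcard := CntL.card_gap N D hD0 B (fun n hn => by
      obtain ⟨h1, h2, h3⟩ := hBm n hn
      refine ⟨key n h1 fun i => ?_, h2⟩
      have := h3 i
      have := hr0 i
      linarith) (fun n hn n' hn' hlt => by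
      obtain ⟨h1, h2, h3⟩ := hBm n hn
      obtain ⟨h1', h2', h3'⟩ := hBm n' hn'
      have h4 := key (n' - n) (by omega) fun i => by
        have h5 : ((n' - n : ℕ) : ℝ) * ξ i = (n' : ℝ) * ξ i - (n : ℝ) * ξ i := by
          rw [Nat.cast_sub hlt.le]
          ring
        rw [h5]
        have := CntL.dn_sub_le ((n' : ℝ) * ξ i) ((n : ℝ) * ξ i)
        have := h3 i
        have := h3' i
        linarith
      rwa [Nat.cast_sub hlt.le] at h4)
  rw [← hB, ← hR]
  refine hcard.trans ?_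
  have h5 : (N : ℝ) / D = N * P ^ (1 / (1 + t)) := by
    rw [hD, Real.rpow_neg hP0.le, div_inv_eq_mul]
  have h6 : P ^ (1 / (1 + t)) ≤ P * (H : ℝ) ^ τ := by
    have h7 : P ^ (1 / (1 + t)) = P * P ^ (-(t / (1 + t))) := by
      conv_rhs => rw [← Real.rpow_one P]
      rw [← Real.rpow_mul hP0.le, one_mul, ← Real.rpow_add hP0]
      congr 1
      field_simp
      ring
    rw [h7]
    refine mul_le_mul_of_nonneg_left ?_ hP0.le
    calc P ^ (-(t / (1 + t))) ≤ ((H : ℝ) ^ (-(m : ℝ))) ^ (-(t / (1 + t))) :=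
          Real.rpow_le_rpow_of_nonpos (Real.rpow_pos_of_pos hH0 _) hPH
            (by
              have : 0 < t / (1 + t) := by positivity
              linarith)
      _ = (H : ℝ) ^ ((m : ℝ) * (t / (1 + t))) := by
          rw [← Real.rpow_mul hH0.le]
          congr 1
          ring
      _ ≤ (H : ℝ) ^ τ := by
          apply Real.rpow_le_rpow_of_exponent_le hH1
          have h8 : t / (1 + t) ≤ t := by
            rw [div_le_iff₀ (by positivity)]
            nlinarith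
          have h9 : (0 : ℝ) ≤ m := Nat.cast_nonneg m
          nlinarith
  rw [h5]
  calc (N : ℝ) * P ^ (1 / (1 + t)) ≤ N * (P * (H : ℝ) ^ τ) :=
        mul_le_mul_of_nonneg_left h6 (Nat.cast_nonneg N)
    _ = 2 ^ m / c * N * R * (H : ℝ) ^ τ := by
        rw [hP]
        ring

end Pool.Agent.N965.LN
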