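import Pool.Agent.N965.LN.Stm

/-!
# The error term (helper136)
-/

set_option autoImplicit false

open Finset Filter Topology

namespace Pool.Agent.N965.LN

namespace Err_

theorem KK_nonneg (H : ℕ) (x : ℝ) : 0 ≤ KK H x := by
  unfold KK
  split_ifs
  · positivity
  · exact le_min (by positivity) (by positivity)

theorem pr_nonneg {m : ℕ} (ξ : Fin m → ℝ) (H n : ℕ) : 0 ≤ ∏ i, KK H ((n : ℝ) * ξ i) :=
  prod_nonneg fun _ _ => KK_nonneg H _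

theorem zsum {τ : ℝ} (hτ : 0 < τ) (n : ℕ) :
    ∑ b ∈ Icc 1 n, ((b : ℝ) ^ (1 + τ))⁻¹ ≤ ∑' b : ℕ, ((b : ℝ) ^ (1 + τ))⁻¹ := by
  apply Summable.sum_le_tsum
  · intro b _
    positivity
  · exact Real.summable_nat_rpow_inv.2 (by linarith)

/-- the algebra of the exponents -/
theorem alg {g b X H τ C1 Ψ E : ℝ} (hg : 0 < g) (hb : 0 < b) (hX : 0 < X) (hH : 0 < H) (hE : 0 ≤ E) :
    (H * Ψ / g) * (2 * (C1 * (g * X ^ τ * E * b⁻¹) ^ (1 + τ) * H ^ τ) * (X / g) ^ (1 + 2 * τ)) =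
      2 * C1 * Ψ * E ^ (1 + τ) * (H ^ (1 + τ) * (X ^ (τ * (1 + τ)) * X ^ (1 + 2 * τ))) *
        ((g ^ (1 + τ))⁻¹ * (b ^ (1 + τ))⁻¹) := by
  have hXτ : 0 < X ^ τ := Real.rpow_pos_of_pos hX _
  have hg1 : 0 < g ^ (1 + τ) := Real.rpow_pos_of_pos hg _
  have hg2 : 0 < g ^ (1 + 2 * τ) := Real.rpow_pos_of_pos hg _
  have hb1 : 0 < b ^ (1 + τ) := Real.rpow_pos_of_pos hb _
  have e1 : (g * X ^ τ * E * b⁻¹) ^ (1 + τ) = g ^ (1 + τ) * X ^ (τ * (1 + τ)) * E ^ (1 + τ) * (b ^ (1 + τ))⁻¹ := by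
    rw [Real.mul_rpow (by positivity) (by positivity), Real.mul_rpow (by positivity) hE,
      Real.mul_rpow hg.le hXτ.le, Real.inv_rpow hb.le, ← Real.rpow_mul hX.le]
  have e2 : (X / g) ^ (1 + 2 * τ) = X ^ (1 + 2 * τ) / g ^ (1 + 2 * τ) := Real.div_rpow hX.le hg.le _
  have e3 : H ^ (1 + τ) = H * H ^ τ := by rw [Real.rpow_add hH, Real.rpow_one]
  have e4 : g ^ (1 + τ) * g ^ (1 + τ) = g * g ^ (1 + 2 * τ) := by
    rw [← Real.rpow_add hg]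
    nth_rewrite 2 [← Real.rpow_one g]
    rw [← Real.rpow_add hg]
    congr 1
    ring
  have e5 : g⁻¹ * g ^ (1 + τ) * (g ^ (1 + 2 * τ))⁻¹ = (g ^ (1 + τ))⁻¹ := by
    calc g⁻¹ * g ^ (1 + τ) * (g ^ (1 + 2 * τ))⁻¹ = g ^ (1 + τ) * (g * g ^ (1 + 2 * τ))⁻¹ := by
          rw [mul_inv]
          ring
      _ = g ^ (1 + τ) * (g ^ (1 + τ) * g ^ (1 + τ))⁻¹ := by rw [e4]
      _ = (g ^ (1 + τ))⁻¹ := by rw [mul_inv, ← mul_assoc, mul_inv_cancel₀ hg1.ne', one_mul]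
  rw [e1, e2, e3]
  calc (H * Ψ / g) * (2 * (C1 * (g ^ (1 + τ) * X ^ (τ * (1 + τ)) * E ^ (1 + τ) * (b ^ (1 + τ))⁻¹) * H ^ τ) *
      (X ^ (1 + 2 * τ) / g ^ (1 + 2 * τ)))
      = 2 * C1 * Ψ * E ^ (1 + τ) * (H * H ^ τ * (X ^ (τ * (1 + τ)) * X ^ (1 + 2 * τ))) *
        ((g⁻¹ * g ^ (1 + τ) * (g ^ (1 + 2 * τ))⁻¹) * (b ^ (1 + τ))⁻¹) := by
        rw [div_eq_mul_inv, div_eq_mul_inv]
        ring
    _ = _ := by rw [e5]

end Err_

open Err_ in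
theorem t_ERR (hPS : S_PS) (hPSI : S_PSI) : S_ERR := by
  intro m ξ hFT τ hτ hτ1 ψ hψ hanti hsum D hD hDψ c hc
  obtain ⟨C1, hC1, hft⟩ := hFT τ hτ
  have hnψ := (hPSI ψ (fun n => (hψ n).le) hanti hsum).1
  set Ψ := ∑' n, ψ n with hΨ
  have hΨ0 : 0 ≤ Ψ := tsum_nonneg fun n => (hψ n).le
  set Z := ∑' b : ℕ, ((b : ℝ) ^ (1 + τ))⁻¹ with hZ
  have hZ0 : 0 ≤ Z := tsum_nonneg fun n => by positivity
  set K := 2 * C1 * Ψ * (D / (2 * c)) ^ (1 + τ) with hK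
  have hK0 : 0 ≤ K := by positivity
  refine ⟨K * (Z * Z) + 1, by positivity, ?_⟩
  intro H X hH hX
  have hH0 : (0 : ℝ) < H := by exact_mod_cast (show 0 < H by omega)
  have hX0 : (0 : ℝ) < X := by exact_mod_cast (show 0 < X by omega)
  have hX1 : (1 : ℝ) ≤ X := by exact_mod_cast hX
  have key : ∀ g ∈ Icc 1 H, ∀ b ∈ Icc 1 (H / g), ∑ t ∈ Icc 1 (X / g), (H : ℝ) * ψ (g * t) *
      (∑ v ∈ Icc 1 ⌊1 / (2 * ((b : ℝ) * (c * ψ (g * t))))⌋₊, ∏ i, KK H (((v * t : ℕ) : ℝ) * ξ i)) ≤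
      K * ((H : ℝ) ^ (1 + τ) * (X : ℝ) ^ (1 + 4 * τ)) * (((g : ℝ) ^ (1 + τ))⁻¹ * ((b : ℝ) ^ (1 + τ))⁻¹) := by
    intro g hg b hb
    rw [mem_Icc] at hg hb
    have hg0 : (0 : ℝ) < g := by exact_mod_cast (show 0 < g by omega)
    have hb0 : (0 : ℝ) < b := by exact_mod_cast (show 0 < b by omega)
    obtain ⟨f, hf⟩ : ∃ f : ℕ → ℝ, f = fun t => ∑ v ∈ Icc 1 ⌊1 / (2 * ((b : ℝ) * (c * ψ (g * t))))⌋₊,
      ∏ i, KK H (((v * t : ℕ) : ℝ) * ξ i) := ⟨_, rfl⟩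
    have hf0 : ∀ n, 0 ≤ f n := by
      intro n
      rw [hf]
      exact sum_nonneg fun v _ => pr_nonneg ξ H _
    obtain ⟨Y, hY⟩ : ∃ Y : ℝ, Y = g * (X : ℝ) ^ τ * (D / (2 * c)) * (b : ℝ)⁻¹ := ⟨_, rfl⟩
    have hY0 : 0 < Y := by rw [hY]; positivity
    have hfl : ∀ t, 1 ≤ t → t ≤ X / g →
        ⌊1 / (2 * ((b : ℝ) * (c * ψ (g * t))))⌋₊ ≤ ⌊(t : ℝ) * Y⌋₊ := by
      intro t ht1 ht2
      apply Nat.floor_le_floor
      have ht0 : (0 : ℝ) < t := by exact_mod_cast (show 0 < t by omega)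
      have hgt : g * t ≤ X := (Nat.mul_le_mul_left g ht2).trans (Nat.mul_div_le X g)
      have hgt1 : 1 ≤ g * t := Nat.mul_pos (by omega) (by omega)
      have h1 := hDψ (g * t) hgt1
      have hp := hψ (g * t)
      have hx0 : (0 : ℝ) < ((g * t : ℕ) : ℝ) := by exact_mod_cast hgt1
      have hx : 0 < ((g * t : ℕ) : ℝ) ^ (1 + τ) := Real.rpow_pos_of_pos hx0 _
      have h2 : 1 / (2 * ((b : ℝ) * (c * ψ (g * t)))) = (1 / ψ (g * t)) * (1 / (2 * c)) * (b : ℝ)⁻¹ := by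
        field_simp
      have h3 : 1 / ψ (g * t) ≤ D * ((g * t : ℕ) : ℝ) ^ (1 + τ) := by
        rw [div_le_iff₀ hp]
        rw [Real.rpow_neg hx0.le] at h1
        have h5 : (((g * t : ℕ) : ℝ) ^ (1 + τ))⁻¹ * ((g * t : ℕ) : ℝ) ^ (1 + τ) = 1 := inv_mul_cancel₀ hx.ne'
        have h6 := mul_le_mul_of_nonneg_right h1 hx.le
        rw [h5] at h6
        linarith
      have h4 : ((g * t : ℕ) : ℝ) ^ (1 + τ) ≤ g * t * (X : ℝ) ^ τ := by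
        rw [Real.rpow_add hx0, Real.rpow_one]
        have h5 : ((g * t : ℕ) : ℝ) ^ τ ≤ (X : ℝ) ^ τ :=
          Real.rpow_le_rpow hx0.le (by exact_mod_cast hgt) hτ.le
        have h6 := mul_le_mul_of_nonneg_left h5 hx0.le
        push_cast at h6 ⊢
        exact h6
      rw [h2, hY]
      calc (1 / ψ (g * t)) * (1 / (2 * c)) * (b : ℝ)⁻¹
          ≤ (D * (g * t * (X : ℝ) ^ τ)) * (1 / (2 * c)) * (b : ℝ)⁻¹ := by
            have h7 : 1 / ψ (g * t) ≤ D * (g * t * (X : ℝ) ^ τ) :=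
              h3.trans (mul_le_mul_of_nonneg_left h4 hD.le)
            have h8 : (0 : ℝ) ≤ 1 / (2 * c) := by positivity
            have h9 : (0 : ℝ) ≤ (b : ℝ)⁻¹ := by positivity
            exact mul_le_mul_of_nonneg_right (mul_le_mul_of_nonneg_right h7 h8) h9
        _ = (t : ℝ) * (g * (X : ℝ) ^ τ * (D / (2 * c)) * (b : ℝ)⁻¹) := by ring
    have hsumf : ∀ s : ℕ, s ≤ X / g →
        ∑ t ∈ Icc 1 s, f t ≤ (C1 * Y ^ (1 + τ) * (H : ℝ) ^ τ) * (s : ℝ) ^ (2 + 2 * τ) := by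
      intro s hs
      calc ∑ t ∈ Icc 1 s, f t ≤ ∑ t ∈ Icc 1 s, ∑ v ∈ Icc 1 ⌊(t : ℝ) * Y⌋₊,
            ∏ i, KK H (((v * t : ℕ) : ℝ) * ξ i) := by
            refine sum_le_sum fun t ht => ?_
            rw [mem_Icc] at ht
            rw [hf]
            exact sum_le_sum_of_subset_of_nonneg (Icc_subset_Icc le_rfl (hfl t ht.1 (ht.2.trans hs)))
              fun v _ _ => pr_nonneg ξ H _
        _ ≤ C1 * (Y * (s : ℝ) ^ 2) ^ (1 + τ) * (H : ℝ) ^ τ := hft H hH Y hY0 s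
        _ = _ := by
            rw [Real.mul_rpow hY0.le (by positivity), ← Real.rpow_natCast, ← Real.rpow_mul (Nat.cast_nonneg s)]
            rw [show ((2 : ℕ) : ℝ) * (1 + τ) = 2 + 2 * τ by push_cast; ring]
            ring
    have hps := hPS f (C1 * Y ^ (1 + τ) * (H : ℝ) ^ τ) τ (X / g) hf0 (by positivity) hτ hsumf
    have hXg : ((X / g : ℕ) : ℝ) ≤ X / g := Nat.cast_div_le
    have h5 : ((X / g : ℕ) : ℝ) ^ (1 + 2 * τ) ≤ ((X : ℝ) / g) ^ (1 + 2 * τ) :=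
      Real.rpow_le_rpow (Nat.cast_nonneg _) hXg (by linarith)
    have hexp : (X : ℝ) ^ (τ * (1 + τ)) * (X : ℝ) ^ (1 + 2 * τ) ≤ (X : ℝ) ^ (1 + 4 * τ) := by
      rw [← Real.rpow_add hX0]
      apply Real.rpow_le_rpow_of_exponent_le hX1
      nlinarith
    calc ∑ t ∈ Icc 1 (X / g), (H : ℝ) * ψ (g * t) *
          (∑ v ∈ Icc 1 ⌊1 / (2 * ((b : ℝ) * (c * ψ (g * t))))⌋₊, ∏ i, KK H (((v * t : ℕ) : ℝ) * ξ i))
        ≤ ∑ t ∈ Icc 1 (X / g), (H * Ψ / g) * (f t / t) := by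
          refine sum_le_sum fun t ht => ?_
          rw [mem_Icc] at ht
          have ht0 : (0 : ℝ) < t := by exact_mod_cast (show 0 < t by omega)
          have h6 := hnψ (g * t)
          push_cast at h6
          have h7 : ψ (g * t) ≤ Ψ / (g * t) := by
            rw [le_div_iff₀ (by positivity)]
            linarith
          have h8 : (H : ℝ) * ψ (g * t) * f t ≤ (H : ℝ) * (Ψ / (g * t)) * f t :=
            mul_le_mul_of_nonneg_right (mul_le_mul_of_nonneg_left h7 hH0.le) (hf0 t)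
          have h9 : (H : ℝ) * (Ψ / (g * t)) * f t = (H * Ψ / g) * (f t / t) := by
            field_simp
          rw [h9] at h8
          rw [hf] at h8 ⊢
          exact h8
      _ = (H * Ψ / g) * ∑ t ∈ Icc 1 (X / g), f t / t := by rw [mul_sum]
      _ ≤ (H * Ψ / g) * (2 * (C1 * Y ^ (1 + τ) * (H : ℝ) ^ τ) * ((X : ℝ) / g) ^ (1 + 2 * τ)) := by
          refine mul_le_mul_of_nonneg_left (hps.trans ?_) (by positivity)
          exact mul_le_mul_of_nonneg_left h5 (by positivity)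
      _ = K * ((H : ℝ) ^ (1 + τ) * ((X : ℝ) ^ (τ * (1 + τ)) * (X : ℝ) ^ (1 + 2 * τ))) *
            (((g : ℝ) ^ (1 + τ))⁻¹ * ((b : ℝ) ^ (1 + τ))⁻¹) := by
          rw [hY]
          exact alg hg0 hb0 hX0 hH0 (by positivity)
      _ ≤ K * ((H : ℝ) ^ (1 + τ) * (X : ℝ) ^ (1 + 4 * τ)) * (((g : ℝ) ^ (1 + τ))⁻¹ * ((b : ℝ) ^ (1 + τ))⁻¹) := by
          refine mul_le_mul_of_nonneg_right (mul_le_mul_of_nonneg_left ?_ hK0) (by positivity)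
          exact mul_le_mul_of_nonneg_left hexp (by positivity)
  set W := K * ((H : ℝ) ^ (1 + τ) * (X : ℝ) ^ (1 + 4 * τ)) with hW
  have hW0 : 0 ≤ W := by positivity
  calc ∑ g ∈ Icc 1 H, ∑ b ∈ Icc 1 (H / g), ∑ t ∈ Icc 1 (X / g), (H : ℝ) * ψ (g * t) *
      (∑ v ∈ Icc 1 ⌊1 / (2 * ((b : ℝ) * (c * ψ (g * t))))⌋₊, ∏ i, KK H (((v * t : ℕ) : ℝ) * ξ i))
      ≤ ∑ g ∈ Icc 1 H, ∑ b ∈ Icc 1 (H / g), W * (((g : ℝ) ^ (1 + τ))⁻¹ * ((b : ℝ) ^ (1 + τ))⁻¹) :=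
        sum_le_sum fun g hg => sum_le_sum fun b hb => key g hg b hb
    _ = ∑ g ∈ Icc 1 H, W * ((g : ℝ) ^ (1 + τ))⁻¹ * ∑ b ∈ Icc 1 (H / g), ((b : ℝ) ^ (1 + τ))⁻¹ := by
        refine sum_congr rfl fun g _ => ?_
        rw [mul_sum]
        refine sum_congr rfl fun b _ => ?_
        ring
    _ ≤ ∑ g ∈ Icc 1 H, W * ((g : ℝ) ^ (1 + τ))⁻¹ * Z := by
        refine sum_le_sum fun g _ => ?_
        exact mul_le_mul_of_nonneg_left (zsum hτ _) (by positivity)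
    _ = W * Z * ∑ g ∈ Icc 1 H, ((g : ℝ) ^ (1 + τ))⁻¹ := by
        rw [mul_sum]
        refine sum_congr rfl fun g _ => ?_
        ring
    _ ≤ W * Z * Z := mul_le_mul_of_nonneg_left (zsum hτ _) (by positivity)
    _ ≤ (K * (Z * Z) + 1) * (H : ℝ) ^ (1 + τ) * (X : ℝ) ^ (1 + 4 * τ) := by
        have h1 : 0 ≤ (H : ℝ) ^ (1 + τ) * (X : ℝ) ^ (1 + 4 * τ) := by positivity
        have h2 : (K * (Z * Z) + 1) * (H : ℝ) ^ (1 + τ) * (X : ℝ) ^ (1 + 4 * τ) =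
          W * Z * Z + (H : ℝ) ^ (1 + τ) * (X : ℝ) ^ (1 + 4 * τ) := by
          rw [hW]
          ring
        rw [h2]
        linarith

end Pool.Agent.N965.LN
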