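import Pool.Agent.N965.LN.Stm

set_option autoImplicit false

/-!
# Project LN (helper965): the Fejér majorant (LN/FEJ, helper907)
-/

open Finset Filter Topology

namespace Pool.Agent.N965.LN.Fej

/-! ### exponentials -/

/-- `exp (2 π i x)` -/
noncomputable def e (x : ℝ) : ℂ := Complex.exp (Complex.I * ((2 * Real.pi * x : ℝ) : ℂ))

theorem e_zero : e 0 = 1 := by simp [e]

theorem e_add (x y : ℝ) : e (x + y) = e x * e y := by
  rw [e, e, e, ← Complex.exp_add]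
  congr 1
  push_cast
  ring

theorem e_neg (x : ℝ) : e (-x) = (starRingEnd ℂ) (e x) := by
  rw [e, e, ← Complex.exp_conj]
  congr 1
  rw [map_mul, Complex.conj_I, Complex.conj_ofReal]
  push_cast
  ring

theorem norm_e (x : ℝ) : ‖e x‖ = 1 := by
  rw [e, mul_comm]
  exact Complex.norm_exp_ofReal_mul_I _

theorem e_mul_conj (x : ℝ) : e x * (starRingEnd ℂ) (e x) = 1 := by
  rw [← e_neg, ← e_add, add_neg_cancel, e_zero]

theorem e_int (n : ℤ) : e n = 1 := by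
  rw [e, Complex.exp_eq_one_iff]
  refine ⟨n, ?_⟩
  push_cast
  ring

theorem norm_e_sub (x : ℝ) : ‖e x - 1‖ = 2 * |Real.sin (Real.pi * x)| := by
  rw [e, Complex.norm_exp_I_mul_ofReal_sub_one, Real.norm_eq_abs, abs_mul, abs_two]
  congr 3
  ring

theorem e_sum {ι : Type} (s : Finset ι) (f : ι → ℝ) : e (∑ i ∈ s, f i) = ∏ i ∈ s, e (f i) := by
  classical
  induction s using Finset.induction_on with
  | empty => simp [e_zero]
  | insert i s hi ih => rw [Finset.sum_insert hi, Finset.prod_insert hi, e_add, ih]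

/-- the sum of the exponentials -/
noncomputable def D (N : ℕ) (x : ℝ) : ℂ := ∑ k ∈ range N, e (k * x)

theorem D_succ (N : ℕ) (x : ℝ) : D (N + 1) x = D N x + e (N * x) := by
  rw [D, Finset.sum_range_succ, D]

theorem D_neg (N : ℕ) (x : ℝ) : ‖D N (-x)‖ = ‖D N x‖ := by
  have : D N (-x) = (starRingEnd ℂ) (D N x) := by
    rw [D, D, map_sum]
    refine Finset.sum_congr rfl fun k _ => ?_
    rw [← e_neg, mul_neg]
  rw [this, Complex.norm_conj]

theorem D_zero (N : ℕ) : D N 0 = N := by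
  simp [D, e_zero]

theorem D_le (N : ℕ) (x : ℝ) : ‖D N x‖ ≤ N := by
  refine (norm_sum_le _ _).trans ?_
  simp [norm_e]

theorem D_mul (N : ℕ) (x : ℝ) : (e x - 1) * D N x = e (N * x) - 1 := by
  induction N with
  | zero => simp [D, e_zero]
  | succ N ih =>
    rw [D_succ, mul_add, ih]
    have : e (((N + 1 : ℕ) : ℝ) * x) = e (N * x) * e x := by
      rw [← e_add]
      congr 1
      push_cast
      ring
    rw [this]
    ring

theorem D_int (N : ℕ) (x : ℝ) (n : ℤ) : D N (x + n) = D N x := by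
  rw [D, D]
  refine Finset.sum_congr rfl fun k _ => ?_
  have h : (k : ℝ) * (x + n) = k * x + (((k : ℤ) * n : ℤ) : ℝ) := by
    push_cast
    ring
  rw [h, e_add, e_int, mul_one]

theorem sumIcc {M : Type} [AddCommMonoid M] (f : ℤ → M) (N : ℕ) : ∑ a ∈ Icc (-(N : ℤ)) N, f a =
    f 0 + ∑ k ∈ range N, (f ((k : ℤ) + 1) + f (-((k : ℤ) + 1))) := by
  induction N with
  | zero => simp
  | succ N ih =>
    have h : Icc (-((N + 1 : ℕ) : ℤ)) ((N + 1 : ℕ) : ℤ) =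
        insert ((N : ℤ) + 1) (insert (-((N : ℤ) + 1)) (Icc (-(N : ℤ)) N)) := by
      ext a
      simp only [Finset.mem_insert, Finset.mem_Icc]
      push_cast
      omega
    rw [h, Finset.sum_insert, Finset.sum_insert, ih, Finset.sum_range_succ]
    · rw [add_comm (f ((N : ℤ) + 1)), add_comm (f (-((N : ℤ) + 1)))]
      simp only [add_assoc]
      congr 2
      exact add_comm _ _
    · simp only [Finset.mem_Icc]
      omega
    · simp only [Finset.mem_insert, Finset.mem_Icc]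
      omega

/-- the Fejér identity -/
theorem fej (N : ℕ) (x : ℝ) : ∑ a ∈ Icc (-(N : ℤ)) N, (((N : ℝ) - |(a : ℝ)| : ℝ) : ℂ) * e (a * x) =
    ((‖D N x‖ ^ 2 : ℝ) : ℂ) := by
  have key : ∀ N : ℕ, ((‖D N x‖ ^ 2 : ℝ) : ℂ) = N + ∑ k ∈ range N, ((N : ℂ) - (k + 1)) *
      (e (((k : ℝ) + 1) * x) + e (-(((k : ℝ) + 1) * x))) := by
    intro N
    induction N with
    | zero => simp [D]
    | succ N ih =>
      have h1 : ∀ n : ℕ, ((‖D n x‖ ^ 2 : ℝ) : ℂ) = D n x * (starRingEnd ℂ) (D n x) := by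
        intro n
        rw [Complex.mul_conj, Complex.normSq_eq_norm_sq]
      have h2 : D N x * (starRingEnd ℂ) (e (N * x)) = ∑ k ∈ range N, e (-(((k : ℝ) + 1) * x)) := by
        rw [← Finset.sum_range_reflect, D, Finset.sum_mul]
        refine Finset.sum_congr rfl fun k hk => ?_
        rw [← e_neg, ← e_add]
        congr 1
        have hk' := Finset.mem_range.1 hk
        have : ((N - 1 - k : ℕ) : ℝ) = (N : ℝ) - 1 - k := by
          rw [Nat.cast_sub (by omega), Nat.cast_sub (by omega)]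
          simp
        rw [this]
        ring
      have h3 : e (N * x) * (starRingEnd ℂ) (D N x) = ∑ k ∈ range N, e ((((k : ℝ) + 1) * x)) := by
        rw [← Finset.sum_range_reflect, D, map_sum, Finset.mul_sum]
        refine Finset.sum_congr rfl fun k hk => ?_
        rw [← e_neg, ← e_add]
        congr 1
        have hk' := Finset.mem_range.1 hk
        have : ((N - 1 - k : ℕ) : ℝ) = (N : ℝ) - 1 - k := by
          rw [Nat.cast_sub (by omega), Nat.cast_sub (by omega)]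
          simp
        rw [this]
        ring
      rw [h1, D_succ, map_add, add_mul, mul_add, mul_add, ← h1, ih, h2, h3, e_mul_conj,
        Finset.sum_range_succ]
      have h4 : ∑ k ∈ range N, (((N + 1 : ℕ) : ℂ) - (k + 1)) *
          (e (((k : ℝ) + 1) * x) + e (-(((k : ℝ) + 1) * x))) =
          ∑ k ∈ range N, ((N : ℂ) - (k + 1)) * (e (((k : ℝ) + 1) * x) + e (-(((k : ℝ) + 1) * x))) +
          (∑ k ∈ range N, e (-(((k : ℝ) + 1) * x)) + ∑ k ∈ range N, e (((k : ℝ) + 1) * x)) := by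
        rw [← Finset.sum_add_distrib, ← Finset.sum_add_distrib]
        refine Finset.sum_congr rfl fun k _ => ?_
        push_cast
        ring
      rw [h4]
      push_cast
      ring
  rw [sumIcc, key]
  congr 1
  · simp [e_zero]
  · refine Finset.sum_congr rfl fun k _ => ?_
    have hk : (0 : ℝ) ≤ (k : ℝ) + 1 := by positivity
    have h1 : |(((k : ℤ) + 1 : ℤ) : ℝ)| = (k : ℝ) + 1 := by
      push_cast
      exact abs_of_nonneg hk
    have h2 : |((-((k : ℤ) + 1) : ℤ) : ℝ)| = (k : ℝ) + 1 := by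
      push_cast
      rw [abs_of_nonpos (by linarith)]
      ring
    rw [h1, h2, ← mul_add]
    congr 1
    · push_cast
      ring
    · congr 2 <;> push_cast <;> ring

/-! ### bounds -/

theorem dn_nonneg (x : ℝ) : 0 ≤ dn x := abs_nonneg _

theorem sin_ge (x : ℝ) : 2 * dn x ≤ |Real.sin (Real.pi * x)| := by
  obtain ⟨z, hz⟩ : ∃ z, z = x - round x := ⟨_, rfl⟩
  have h1 : |z| ≤ 1 / 2 := by
    rw [hz]
    exact abs_sub_round x
  have h2 : |Real.sin (Real.pi * x)| = |Real.sin (Real.pi * z)| := by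
    have : Real.pi * x = Real.pi * z + (round x : ℤ) * Real.pi := by
      rw [hz]
      ring
    rw [this, Real.sin_add_int_mul_pi, abs_mul, abs_zpow, abs_neg, abs_one, one_zpow, one_mul]
  have h3 : dn x = |z| := by rw [dn, hz]
  rw [h2, h3]
  have h4 := Real.mul_abs_le_abs_sin (x := Real.pi * z) (by
    rw [abs_mul, abs_of_pos Real.pi_pos]
    have := Real.pi_pos
    nlinarith)
  rw [abs_mul, abs_of_pos Real.pi_pos] at h4
  have h5 : 2 / Real.pi * (Real.pi * |z|) = 2 * |z| := by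
    field_simp
  linarith

theorem D_le' (N : ℕ) {x : ℝ} (hx : dn x ≠ 0) : ‖D N x‖ ≤ 1 / (2 * dn x) := by
  have h0 : 0 < dn x := lt_of_le_of_ne (dn_nonneg x) (Ne.symm hx)
  have h1 : ‖e x - 1‖ * ‖D N x‖ ≤ 2 := by
    rw [← norm_mul, D_mul]
    refine (norm_sub_le _ _).trans ?_
    rw [norm_e, norm_one]
    norm_num
  have h2 : 4 * dn x ≤ ‖e x - 1‖ := by
    rw [norm_e_sub]
    have := sin_ge x
    linarith
  rw [le_div_iff₀ (by positivity)]
  have h3 := norm_nonneg (D N x)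
  nlinarith

theorem D_ge {N : ℕ} (hN : 1 ≤ N) {x : ℝ} (hx : dn x ≤ 1 / (2 * N)) :
    2 * (N : ℝ) / Real.pi ≤ ‖D N x‖ := by
  have hpi := Real.pi_pos
  have hN' : (1 : ℝ) ≤ N := by exact_mod_cast hN
  obtain ⟨z, hz⟩ : ∃ z, z = x - round x := ⟨_, rfl⟩
  have h3 : dn x = |z| := by rw [dn, hz]
  have h4 : D N x = D N z := by
    have : x = z + (round x : ℤ) := by
      rw [hz]
      ring
    rw [this, D_int]
  rw [h4]
  rw [h3] at hx
  by_cases h0 : z = 0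
  · rw [h0, D_zero, Complex.norm_natCast, div_le_iff₀ hpi]
    have := Real.pi_gt_three
    nlinarith
  have hz0 : 0 < |z| := abs_pos.2 h0
  have h5 : ‖e z - 1‖ * ‖D N z‖ = ‖e (N * z) - 1‖ := by
    rw [← norm_mul, D_mul]
  rw [norm_e_sub, norm_e_sub] at h5
  have h6 : |Real.sin (Real.pi * z)| ≤ Real.pi * |z| := by
    have h7 := Real.abs_sin_le_abs (x := Real.pi * z)
    rwa [abs_mul, abs_of_pos hpi] at h7
  have h7 : 2 * (N * |z|) ≤ |Real.sin (Real.pi * (N * z))| := by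
    have h8 := Real.mul_abs_le_abs_sin (x := Real.pi * (N * z)) (by
      rw [abs_mul, abs_of_pos hpi, abs_mul, Nat.abs_cast]
      have h9 : (N : ℝ) * |z| ≤ 1 / 2 := by
        calc (N : ℝ) * |z| ≤ N * (1 / (2 * N)) := by gcongr
          _ = 1 / 2 := by field_simp
      nlinarith)
    rw [abs_mul, abs_of_pos hpi, abs_mul, Nat.abs_cast] at h8
    have h5 : 2 / Real.pi * (Real.pi * (N * |z|)) = 2 * (N * |z|) := by
      field_simp
    linarith
  rw [div_le_iff₀ hpi]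
  have h8 := norm_nonneg (D N z)
  have h9 : 2 * (N * |z|) ≤ Real.pi * |z| * ‖D N z‖ := by
    calc 2 * (N * |z|) ≤ |Real.sin (Real.pi * (N * z))| := h7
      _ = |Real.sin (Real.pi * z)| * ‖D N z‖ := by linarith
      _ ≤ Real.pi * |z| * ‖D N z‖ := by gcongr
  have h10 : |z| * (2 * N) ≤ |z| * (‖D N z‖ * Real.pi) := by linarith
  exact le_of_mul_le_mul_left h10 hz0

theorem KK_ge {H : ℕ} (hH : 1 ≤ H) (x : ℝ) : ‖D (2 * H) x‖ ^ 2 / H ≤ KK H x := by
  have hH' : (1 : ℝ) ≤ H := by exact_mod_cast hH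
  have h0 : (0 : ℝ) < H := by linarith
  have h1 : ‖D (2 * H) x‖ ^ 2 / H ≤ 4 * (H : ℝ) := by
    rw [div_le_iff₀ h0]
    have h2 := D_le (2 * H) x
    push_cast at h2
    calc ‖D (2 * H) x‖ ^ 2 ≤ (2 * (H : ℝ)) ^ 2 := pow_le_pow_left₀ (norm_nonneg _) h2 2
      _ = _ := by ring
  unfold KK
  split_ifs with h
  · exact h1
  · refine le_min h1 ?_
    have h3 : 0 < dn x := lt_of_le_of_ne (dn_nonneg x) (Ne.symm h)
    have h2 := D_le' (2 * H) h
    calc ‖D (2 * H) x‖ ^ 2 / H ≤ (1 / (2 * dn x)) ^ 2 / H := by gcongr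
      _ = _ := by field_simp; ring

/-! ### the weighted sum -/

/-- the weight -/
noncomputable def w (H : ℕ) (a : ℤ) : ℝ := (2 * (H : ℝ) - |(a : ℝ)|) / H

theorem w_nonneg {H : ℕ} {a : ℤ} (ha : a ∈ Icc (-((2 * H : ℕ) : ℤ)) ((2 * H : ℕ) : ℤ)) : 0 ≤ w H a := by
  rw [Finset.mem_Icc] at ha
  unfold w
  refine div_nonneg ?_ (Nat.cast_nonneg _)
  have h1 : |(a : ℝ)| ≤ 2 * (H : ℝ) := by
    rw [abs_le]
    constructor
    · have := ha.1
      have h2 : ((-((2 * H : ℕ) : ℤ) : ℤ) : ℝ) ≤ a := by exact_mod_cast this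
      push_cast at h2
      linarith
    · have := ha.2
      have h2 : (a : ℝ) ≤ (((2 * H : ℕ) : ℤ) : ℝ) := by exact_mod_cast this
      push_cast at h2
      linarith
  linarith

theorem w_one_le {H : ℕ} (hH : 1 ≤ H) {a : ℤ} (ha : a ∈ Icc (-(H : ℤ)) H) : 1 ≤ w H a := by
  have hH' : (1 : ℝ) ≤ H := by exact_mod_cast hH
  rw [Finset.mem_Icc] at ha
  unfold w
  rw [le_div_iff₀ (by linarith)]
  have h1 : |(a : ℝ)| ≤ (H : ℝ) := by
    rw [abs_le]
    constructor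
    · have h2 : ((-(H : ℤ) : ℤ) : ℝ) ≤ a := by exact_mod_cast ha.1
      push_cast at h2
      linarith
    · exact_mod_cast ha.2
  linarith

theorem sum_w (H : ℕ) (x : ℝ) :
    ∑ a ∈ Icc (-((2 * H : ℕ) : ℤ)) ((2 * H : ℕ) : ℤ), ((w H a : ℝ) : ℂ) * e (a * x) =
      ((‖D (2 * H) x‖ ^ 2 / H : ℝ) : ℂ) := by
  have h := fej (2 * H) x
  have h2 : ((‖D (2 * H) x‖ ^ 2 / H : ℝ) : ℂ) = ((‖D (2 * H) x‖ ^ 2 : ℝ) : ℂ) / (H : ℂ) := by
    push_cast
    rfl
  rw [h2, ← h, Finset.sum_div]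
  refine Finset.sum_congr rfl fun a _ => ?_
  unfold w
  push_cast
  ring

/-- the sum over the box -/
theorem sum_box {m : ℕ} (H : ℕ) (β : Fin m → ℝ) (v : ℝ) :
    ∑ a ∈ box m (2 * H), (((∏ i, w H (a i) : ℝ)) : ℂ) * e (v * ∑ i, (a i : ℝ) * β i) =
      ((∏ i, (‖D (2 * H) (v * β i)‖ ^ 2 / H) : ℝ) : ℂ) := by
  have h1 : ((∏ i, (‖D (2 * H) (v * β i)‖ ^ 2 / H) : ℝ) : ℂ) =
      ∏ i, ((‖D (2 * H) (v * β i)‖ ^ 2 / H : ℝ) : ℂ) := Complex.ofReal_prod _ _
  rw [h1]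
  simp only [← sum_w]
  rw [Finset.prod_univ_sum]
  unfold box
  refine Finset.sum_congr rfl fun a _ => ?_
  rw [Finset.prod_mul_distrib, ← e_sum, ← Complex.ofReal_prod]
  congr 2
  rw [Finset.mul_sum]
  refine Finset.sum_congr rfl fun i _ => ?_
  ring

/-- the double sum -/
theorem sum_main {m : ℕ} (H V : ℕ) (β : Fin m → ℝ) :
    ∑ a ∈ box m (2 * H), (∏ i, w H (a i)) * ‖D V (∑ i, (a i : ℝ) * β i)‖ ^ 2 =
      ∑ v ∈ Icc (-(V : ℤ)) V, ((V : ℝ) - |(v : ℝ)|) *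
        ∏ i, (‖D (2 * H) ((v : ℝ) * β i)‖ ^ 2 / H) := by
  have h : ((∑ a ∈ box m (2 * H), (∏ i, w H (a i)) * ‖D V (∑ i, (a i : ℝ) * β i)‖ ^ 2 : ℝ) : ℂ) =
      ((∑ v ∈ Icc (-(V : ℤ)) V, ((V : ℝ) - |(v : ℝ)|) *
        ∏ i, (‖D (2 * H) ((v : ℝ) * β i)‖ ^ 2 / H) : ℝ) : ℂ) := by
    rw [Complex.ofReal_sum, Complex.ofReal_sum]
    have h1 : ∀ a ∈ box m (2 * H), (((∏ i, w H (a i)) * ‖D V (∑ i, (a i : ℝ) * β i)‖ ^ 2 : ℝ) : ℂ) =
        ∑ v ∈ Icc (-(V : ℤ)) V, ((((V : ℝ) - |(v : ℝ)| : ℝ)) : ℂ) *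
          ((((∏ i, w H (a i) : ℝ)) : ℂ) * e ((v : ℝ) * ∑ i, (a i : ℝ) * β i)) := by
      intro a _
      rw [Complex.ofReal_mul, ← fej V, Finset.mul_sum]
      refine Finset.sum_congr rfl fun v _ => ?_
      ring
    rw [Finset.sum_congr rfl h1, Finset.sum_comm]
    refine Finset.sum_congr rfl fun v _ => ?_
    rw [← Finset.mul_sum, sum_box, ← Complex.ofReal_mul]
  exact_mod_cast h

theorem main {m H : ℕ} (β : Fin m → ℝ) (ρ : ℝ) (hH : 1 ≤ H) (hρ : 0 < ρ) (hρ2 : ρ ≤ 1 / 2) :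
    (((box m H).filter fun a => dn (∑ i, (a i : ℝ) * β i) ≤ ρ).card : ℝ) ≤
      10 * ρ * (4 * (H : ℝ)) ^ m + 20 * ρ * ∑ v ∈ Icc 1 ⌊1 / (2 * ρ)⌋₊, ∏ i, KK H ((v : ℝ) * β i) := by
  have hpi := Real.pi_pos
  have hH' : (1 : ℝ) ≤ H := by exact_mod_cast hH
  have hH0 : (0 : ℝ) < H := by linarith
  obtain ⟨V, hV⟩ : ∃ V : ℕ, V = ⌊1 / (2 * ρ)⌋₊ := ⟨_, rfl⟩
  have hr : (1 : ℝ) ≤ 1 / (2 * ρ) := by
    rw [le_div_iff₀ (by positivity)]
    linarith
  have hV1 : 1 ≤ V := by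
    rw [hV]
    exact (Nat.one_le_floor_iff _).2 hr
  have hV1' : (1 : ℝ) ≤ V := by exact_mod_cast hV1
  have hV2 : (V : ℝ) ≤ 1 / (2 * ρ) := by
    rw [hV]
    exact Nat.floor_le (by positivity)
  have hV3 : 1 / (2 * ρ) < (V : ℝ) + 1 := by
    rw [hV]
    exact Nat.lt_floor_add_one _
  have hρV : ρ ≤ 1 / (2 * V) := by
    rw [le_div_iff₀ (by positivity)] at hV2 ⊢
    linarith
  have hV4 : 1 / (V : ℝ) ≤ 4 * ρ := by
    rw [div_lt_iff₀ (by positivity)] at hV3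
    rw [div_le_iff₀ (by positivity)]
    nlinarith
  rw [← hV]
  -- the majorant
  have h1 : (((box m H).filter fun a => dn (∑ i, (a i : ℝ) * β i) ≤ ρ).card : ℝ) ≤
      Real.pi ^ 2 / (4 * (V : ℝ) ^ 2) *
        ∑ a ∈ box m (2 * H), (∏ i, w H (a i)) * ‖D V (∑ i, (a i : ℝ) * β i)‖ ^ 2 := by
    rw [Finset.mul_sum]
    calc (((box m H).filter fun a => dn (∑ i, (a i : ℝ) * β i) ≤ ρ).card : ℝ)
        = ∑ a ∈ (box m H).filter fun a => dn (∑ i, (a i : ℝ) * β i) ≤ ρ, (1 : ℝ) := by simp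
      _ ≤ ∑ a ∈ (box m H).filter fun a => dn (∑ i, (a i : ℝ) * β i) ≤ ρ,
          Real.pi ^ 2 / (4 * (V : ℝ) ^ 2) *
            ((∏ i, w H (a i)) * ‖D V (∑ i, (a i : ℝ) * β i)‖ ^ 2) := by
          refine Finset.sum_le_sum fun a ha => ?_
          rw [Finset.mem_filter] at ha
          have h2 := D_ge hV1 (ha.2.trans hρV)
          have h3 : (2 * (V : ℝ) / Real.pi) ^ 2 ≤ ‖D V (∑ i, (a i : ℝ) * β i)‖ ^ 2 :=
            pow_le_pow_left₀ (by positivity) h2 2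
          have h4 : (1 : ℝ) ≤ ∏ i, w H (a i) := by
            calc (1 : ℝ) = ∏ i : Fin m, (1 : ℝ) := by simp
              _ ≤ _ := Finset.prod_le_prod (fun _ _ => zero_le_one) fun i _ =>
                w_one_le hH (Fintype.mem_piFinset.1 ha.1 i)
          calc (1 : ℝ) = Real.pi ^ 2 / (4 * (V : ℝ) ^ 2) * (1 * (2 * (V : ℝ) / Real.pi) ^ 2) := by
                field_simp
                norm_num
            _ ≤ _ := by gcongr
      _ ≤ _ := by
          refine Finset.sum_le_sum_of_subset_of_nonneg ?_ ?_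
          · intro a ha
            rw [Finset.mem_filter] at ha
            have h2 := Fintype.mem_piFinset.1 ha.1
            refine Fintype.mem_piFinset.2 fun i => ?_
            have h3 := Finset.mem_Icc.1 (h2 i)
            rw [Finset.mem_Icc]
            push_cast
            constructor <;> omega
          · intro a ha _
            have h2 : 0 ≤ ∏ i, w H (a i) := Finset.prod_nonneg fun i _ =>
              w_nonneg (Fintype.mem_piFinset.1 ha i)
            positivity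
  -- the even sum
  have hKn : ∀ x : ℝ, 0 ≤ KK H x := fun x => le_trans (by positivity) (KK_ge hH x)
  have h2 : ∑ v ∈ Icc (-(V : ℤ)) V, ((V : ℝ) - |(v : ℝ)|) *
        ∏ i, (‖D (2 * H) ((v : ℝ) * β i)‖ ^ 2 / H) ≤
      V * (4 * (H : ℝ)) ^ m + 2 * V * ∑ v ∈ Icc 1 V, ∏ i, KK H ((v : ℝ) * β i) := by
    rw [sumIcc]
    refine add_le_add ?_ ?_
    · have h3 : ∀ i : Fin m, ‖D (2 * H) (((0 : ℤ) : ℝ) * β i)‖ ^ 2 / (H : ℝ) = 4 * H := by
        intro i
        rw [Int.cast_zero, zero_mul, D_zero, Complex.norm_natCast]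
        push_cast
        field_simp
        ring
      rw [Finset.prod_congr rfl fun i _ => h3 i]
      simp
    · have h3 : ∑ v ∈ Icc 1 V, ∏ i, KK H ((v : ℝ) * β i) =
          ∑ k ∈ range V, ∏ i, KK H (((k + 1 : ℕ) : ℝ) * β i) := by
        rw [Finset.range_eq_Ico, Finset.sum_Ico_add' (fun v : ℕ => ∏ i, KK H ((v : ℝ) * β i)) 0 V 1]
        rfl
      rw [h3, Finset.mul_sum]
      refine Finset.sum_le_sum fun k hk => ?_
      have hk' : (k : ℝ) + 1 ≤ V := by exact_mod_cast Finset.mem_range.1 hk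
      have hk0 : (0 : ℝ) ≤ k := Nat.cast_nonneg _
      have h4 : |(((k : ℤ) + 1 : ℤ) : ℝ)| = (k : ℝ) + 1 := by
        push_cast
        exact abs_of_nonneg (by positivity)
      have h5 : |((-((k : ℤ) + 1) : ℤ) : ℝ)| = (k : ℝ) + 1 := by
        push_cast
        rw [abs_of_nonpos (by linarith)]
        ring
      have h6 : ∀ i : Fin m, ‖D (2 * H) (((-((k : ℤ) + 1) : ℤ) : ℝ) * β i)‖ ^ 2 / (H : ℝ) =
          ‖D (2 * H) (((k + 1 : ℕ) : ℝ) * β i)‖ ^ 2 / (H : ℝ) := by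
        intro i
        rw [← D_neg]
        congr 4
        push_cast
        ring
      have h7 : ∀ i : Fin m, ‖D (2 * H) (((((k : ℤ) + 1) : ℤ) : ℝ) * β i)‖ ^ 2 / (H : ℝ) =
          ‖D (2 * H) (((k + 1 : ℕ) : ℝ) * β i)‖ ^ 2 / (H : ℝ) := by
        intro i
        congr 4
      rw [h4, h5, Finset.prod_congr rfl fun i _ => h6 i, Finset.prod_congr rfl fun i _ => h7 i]
      have h8 : ∏ i, (‖D (2 * H) (((k + 1 : ℕ) : ℝ) * β i)‖ ^ 2 / (H : ℝ)) ≤
          ∏ i, KK H (((k + 1 : ℕ) : ℝ) * β i) :=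
        Finset.prod_le_prod (fun _ _ => by positivity) fun i _ => KK_ge hH _
      have h9 : 0 ≤ ∏ i, (‖D (2 * H) (((k + 1 : ℕ) : ℝ) * β i)‖ ^ 2 / (H : ℝ)) :=
        Finset.prod_nonneg fun i _ => by positivity
      have h10 : ((V : ℝ) - (k + 1)) * ∏ i, (‖D (2 * H) (((k + 1 : ℕ) : ℝ) * β i)‖ ^ 2 / (H : ℝ)) ≤
          V * ∏ i, KK H (((k + 1 : ℕ) : ℝ) * β i) := by
        refine mul_le_mul ?_ h8 h9 (by positivity)
        linarith
      linarith
  rw [sum_main] at h1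
  have hS : 0 ≤ ∑ v ∈ Icc 1 V, ∏ i, KK H ((v : ℝ) * β i) :=
    Finset.sum_nonneg fun v _ => Finset.prod_nonneg fun i _ => hKn _
  have hpi2 : Real.pi ^ 2 ≤ 10 := by
    have := Real.pi_lt_d2
    nlinarith
  calc _ ≤ Real.pi ^ 2 / (4 * (V : ℝ) ^ 2) * (V * (4 * (H : ℝ)) ^ m +
        2 * V * ∑ v ∈ Icc 1 V, ∏ i, KK H ((v : ℝ) * β i)) :=
        h1.trans (mul_le_mul_of_nonneg_left h2 (by positivity))
    _ = (Real.pi ^ 2 / 4 * (1 / V)) * ((4 * (H : ℝ)) ^ m +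
        2 * ∑ v ∈ Icc 1 V, ∏ i, KK H ((v : ℝ) * β i)) := by
        field_simp
    _ ≤ (10 / 4 * (4 * ρ)) * ((4 * (H : ℝ)) ^ m +
        2 * ∑ v ∈ Icc 1 V, ∏ i, KK H ((v : ℝ) * β i)) := by
        gcongr
    _ = _ := by ring

end Pool.Agent.N965.LN.Fej

namespace Pool.Agent.N965.LN

theorem t_FEJ : S_FEJ := fun _ _ β ρ hH hρ hρ2 => Fej.main β ρ hH hρ hρ2

end Pool.Agent.N965.LN
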