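import Pool.Agent.N965.LN.Stm
import Pool.Agent.H510R2.Div

set_option autoImplicit false

/-!
# LN/FTL (helper143): sums over products with the divisor function
-/

open Finset Filter Topology

namespace Pool.Agent.N965.LN

namespace FtlAux

theorem KK_nonneg (H : ℕ) (x : ℝ) : 0 ≤ KK H x := by
  unfold KK
  split_ifs <;> positivity

/-- the product -/
noncomputable def FF {m : ℕ} (ξ : Fin m → ℝ) (H : ℕ) (n : ℕ) : ℝ := ∏ i, KK H ((n : ℝ) * ξ i)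

theorem FF_nonneg {m : ℕ} (ξ : Fin m → ℝ) (H : ℕ) (n : ℕ) : 0 ≤ FF ξ H n :=
  Finset.prod_nonneg fun _ _ => KK_nonneg H _

theorem inner_le (F : ℕ → ℝ) (hF : ∀ n, 0 ≤ F n) (t M N : ℕ) (ht : 1 ≤ t) (hMN : M * t ≤ N) :
    ∑ v ∈ Icc 1 M, F (v * t) ≤ ∑ n ∈ Icc 1 N, if t ∣ n then F n else 0 := by
  rw [← Finset.sum_filter]
  have hinj : Set.InjOn (fun v => v * t) (Icc 1 M : Finset ℕ) := by
    intro a _ b _ hab
    exact Nat.eq_of_mul_eq_mul_right ht hab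
  rw [← Finset.sum_image (f := F) hinj]
  refine Finset.sum_le_sum_of_subset_of_nonneg ?_ fun n _ _ => hF n
  intro n hn
  obtain ⟨v, hv, rfl⟩ := Finset.mem_image.1 hn
  rw [Finset.mem_Icc] at hv
  refine Finset.mem_filter.2 ⟨Finset.mem_Icc.2 ⟨Nat.mul_pos hv.1 ht, ?_⟩, dvd_mul_left _ _⟩
  exact (Nat.mul_le_mul_right t hv.2).trans hMN

theorem outer_le (F : ℕ → ℝ) (hF : ∀ n, 0 ≤ F n) (s N : ℕ) :
    ∑ t ∈ Icc 1 s, ∑ n ∈ Icc 1 N, (if t ∣ n then F n else 0) ≤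
      ∑ n ∈ Icc 1 N, (n.divisors.card : ℝ) * F n := by
  rw [Finset.sum_comm]
  refine Finset.sum_le_sum fun n hn => ?_
  rw [← Finset.sum_filter, Finset.sum_const, nsmul_eq_mul]
  refine mul_le_mul_of_nonneg_right ?_ (hF n)
  have : (Icc 1 s).filter (fun t => t ∣ n) ⊆ n.divisors := by
    intro t ht
    rw [Finset.mem_filter] at ht
    have := (Finset.mem_Icc.1 hn).1
    exact Nat.mem_divisors.2 ⟨ht.2, by omega⟩
  exact_mod_cast Finset.card_le_card this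

end FtlAux

open FtlAux

theorem t_FTL : S_FTL := by
  intro m ξ hK τ hτ
  obtain ⟨C2, hC2, hK2⟩ := hK τ hτ
  obtain ⟨C1, hC1, hdiv⟩ := Pool.Agent.H510R2.divisor_bound τ hτ
  refine ⟨C1 * C2, by positivity, ?_⟩
  intro H hH Y hY s
  obtain ⟨N, hN⟩ : ∃ N : ℕ, N = ⌊Y * (s : ℝ) ^ 2⌋₊ := ⟨_, rfl⟩
  have hN' : (N : ℝ) ≤ Y * (s : ℝ) ^ 2 := by
    rw [hN]; exact Nat.floor_le (by positivity)
  have hF := FF_nonneg ξ H
  have h1 : ∑ t ∈ Icc 1 s, ∑ v ∈ Icc 1 ⌊(t : ℝ) * Y⌋₊, ∏ i, KK H (((v * t : ℕ) : ℝ) * ξ i) ≤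
      ∑ n ∈ Icc 1 N, (n.divisors.card : ℝ) * FF ξ H n := by
    refine le_trans (Finset.sum_le_sum fun t ht => ?_) (outer_le (FF ξ H) hF s N)
    rw [Finset.mem_Icc] at ht
    refine inner_le (FF ξ H) hF t _ N ht.1 ?_
    rw [hN]
    refine Nat.le_floor ?_
    push_cast
    have ht0 : (0 : ℝ) ≤ t := Nat.cast_nonneg t
    have hts : (t : ℝ) ≤ s := by exact_mod_cast ht.2
    have h2 : ((⌊(t : ℝ) * Y⌋₊ : ℕ) : ℝ) ≤ t * Y := Nat.floor_le (by positivity)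
    calc ((⌊(t : ℝ) * Y⌋₊ : ℕ) : ℝ) * t ≤ (t * Y) * t := mul_le_mul_of_nonneg_right h2 ht0
      _ = Y * (t : ℝ) ^ 2 := by ring
      _ ≤ Y * (s : ℝ) ^ 2 :=
        mul_le_mul_of_nonneg_left (pow_le_pow_left₀ ht0 hts 2) hY.le
  refine h1.trans ?_
  have h2 : ∑ n ∈ Icc 1 N, (n.divisors.card : ℝ) * FF ξ H n ≤
      ∑ n ∈ Icc 1 N, (C1 * (N : ℝ) ^ τ) * FF ξ H n := by
    refine Finset.sum_le_sum fun n hn => ?_
    rw [Finset.mem_Icc] at hn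
    refine mul_le_mul_of_nonneg_right ?_ (hF n)
    refine (hdiv n hn.1).trans ?_
    refine mul_le_mul_of_nonneg_left ?_ hC1.le
    exact Real.rpow_le_rpow (Nat.cast_nonneg _) (by exact_mod_cast hn.2) hτ.le
  refine h2.trans ?_
  rw [← Finset.mul_sum]
  have h3 : ∑ n ∈ Icc 1 N, FF ξ H n ≤ C2 * N * (H : ℝ) ^ τ := hK2 H hH N
  have h4 : C1 * (N : ℝ) ^ τ * ∑ n ∈ Icc 1 N, FF ξ H n ≤
      C1 * (N : ℝ) ^ τ * (C2 * N * (H : ℝ) ^ τ) :=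
    mul_le_mul_of_nonneg_left h3 (by positivity)
  refine h4.trans ?_
  have h5 : C1 * (N : ℝ) ^ τ * (C2 * N * (H : ℝ) ^ τ) =
      C1 * C2 * (N : ℝ) ^ (1 + τ) * (H : ℝ) ^ τ := by
    rw [Real.rpow_add_of_nonneg (Nat.cast_nonneg N) zero_le_one hτ.le, Real.rpow_one]
    ring
  rw [h5]
  have h6 : (N : ℝ) ^ (1 + τ) ≤ (Y * (s : ℝ) ^ 2) ^ (1 + τ) :=
    Real.rpow_le_rpow (Nat.cast_nonneg N) hN' (by positivity)
  refine mul_le_mul_of_nonneg_right ?_ (by positivity)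
  exact mul_le_mul_of_nonneg_left h6 (by positivity)

end Pool.Agent.N965.LN
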