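import Pool.Agent.N965.LN.Stm

/-!
# LN/KS: the sum of the kernels
-/

set_option autoImplicit false

open Finset Filter Topology

namespace Pool.Agent.N965.LN

namespace KSP

theorem dn_nonneg (x : ℝ) : 0 ≤ dn x := abs_nonneg _

theorem dn_le (x : ℝ) : dn x ≤ 1 / 2 := abs_sub_round x

theorem KK_nonneg (H : ℕ) (x : ℝ) : 0 ≤ KK H x := by
  unfold KK
  split_ifs
  · positivity
  · have := dn_nonneg x
    apply le_min <;> positivity

theorem KK_le (H : ℕ) (hH : 1 ≤ H) (x : ℝ) :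
    KK H x ≤ ∑ j ∈ range (Nat.log 2 H + 1),
      (4 * (H : ℝ) / 4 ^ j) * (if dn x ≤ 2 ^ j / (H : ℝ) then 1 else 0) := by
  have hH0 : (0 : ℝ) < H := by exact_mod_cast hH
  have hex : ∃ j : ℕ, dn x ≤ 2 ^ j / (H : ℝ) := by
    refine ⟨Nat.log 2 H, ?_⟩
    have h1 : H < 2 ^ (Nat.log 2 H + 1) := Nat.lt_pow_succ_log_self (by norm_num) H
    have h2 : (H : ℝ) < 2 ^ (Nat.log 2 H + 1) := by exact_mod_cast h1
    rw [le_div_iff₀ hH0]
    rw [pow_succ] at h2
    have h3 := dn_le x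
    nlinarith
  classical
  have hJ : Nat.find hex ≤ Nat.log 2 H := by
    apply Nat.find_le
    have h1 : H < 2 ^ (Nat.log 2 H + 1) := Nat.lt_pow_succ_log_self (by norm_num) H
    have h2 : (H : ℝ) < 2 ^ (Nat.log 2 H + 1) := by exact_mod_cast h1
    rw [le_div_iff₀ hH0]
    rw [pow_succ] at h2
    have h3 := dn_le x
    nlinarith
  have hspec := Nat.find_spec hex
  have hmin : ∀ k < Nat.find hex, ¬ dn x ≤ 2 ^ k / (H : ℝ) := fun k hk => Nat.find_min hex hk
  revert hJ hspec hmin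
  generalize Nat.find hex = j
  intro hJ hspec hmin
  have h1 : KK H x ≤ 4 * (H : ℝ) / 4 ^ j := by
    cases j with
    | zero =>
      rw [pow_zero, div_one]
      unfold KK
      split_ifs
      · exact le_rfl
      · exact min_le_left _ _
    | succ k =>
      have h2 := not_le.1 (hmin k (Nat.lt_succ_self k))
      have h3 : (0 : ℝ) < 2 ^ k / (H : ℝ) := by positivity
      have h4 : dn x ≠ 0 := by
        intro h; rw [h] at h2; linarith
      have h5 : 0 < dn x := lt_trans h3 h2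
      unfold KK
      rw [if_neg h4]
      refine (min_le_right _ _).trans ?_
      have h6 : (2 ^ k / (H : ℝ)) ^ 2 ≤ dn x ^ 2 := pow_le_pow_left₀ h3.le h2.le 2
      have h7 : 1 / (4 * (H : ℝ) * dn x ^ 2) ≤ 1 / (4 * (H : ℝ) * (2 ^ k / (H : ℝ)) ^ 2) := by
        apply one_div_le_one_div_of_le
        · positivity
        · exact mul_le_mul_of_nonneg_left h6 (by positivity)
      refine h7.trans ?_
      have h8 : (4 : ℝ) ^ k = 2 ^ k * 2 ^ k := by
        rw [← mul_pow]; norm_num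
      rw [pow_succ (4 : ℝ), h8]
      have h9 : 1 / (4 * (H : ℝ) * (2 ^ k / (H : ℝ)) ^ 2) = (H : ℝ) / (4 * (2 ^ k * 2 ^ k)) := by
        field_simp
      rw [h9, div_le_div_iff₀ (by positivity) (by positivity)]
      have h10 : (0 : ℝ) < 2 ^ k * 2 ^ k := by positivity
      nlinarith
  have h2 := Finset.single_le_sum (f := fun j : ℕ =>
    (4 * (H : ℝ) / 4 ^ j) * (if dn x ≤ 2 ^ j / (H : ℝ) then (1 : ℝ) else 0))
    (s := range (Nat.log 2 H + 1)) (fun i _ => by split_ifs <;> positivity)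
    (Finset.mem_range.2 (Nat.lt_succ_of_le hJ))
  refine le_trans ?_ h2
  rw [if_pos hspec, mul_one]
  exact h1

theorem sum_two (J : ℕ) : ∑ j ∈ range (J + 1), (4 : ℝ) / 2 ^ j ≤ 8 := by
  have h := sum_geometric_two_le (J + 1)
  have h1 : ∑ j ∈ range (J + 1), (4 : ℝ) / 2 ^ j = 4 * ∑ j ∈ range (J + 1), (1 / (2 : ℝ)) ^ j := by
    rw [Finset.mul_sum]
    refine Finset.sum_congr rfl fun j _ => ?_
    rw [one_div, inv_pow, div_eq_mul_inv]
  rw [h1]
  linarith

end KSP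

open KSP in
/-- LN/KS -/
theorem t_KS : S_KS := by
  classical
  intro m ξ hcnt τ hτ
  obtain ⟨C, hC, hcnt⟩ := hcnt τ hτ
  refine ⟨C * 8 ^ m, by positivity, fun H hH N => ?_⟩
  have hH0 : (0 : ℝ) < H := by exact_mod_cast hH
  set J := Nat.log 2 H with hJ
  have hH2 : (2 : ℝ) ^ J ≤ H := by
    have : 2 ^ J ≤ H := Nat.pow_log_le_self 2 (by omega)
    exact_mod_cast this
  -- expansion of the product
  have h1 : ∀ n : ℕ, ∏ i, KK H ((n : ℝ) * ξ i) ≤
      ∑ p ∈ Fintype.piFinset (fun _ : Fin m => range (J + 1)),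
        (∏ i, (4 * (H : ℝ) / 4 ^ (p i))) *
          (if ∀ i, dn ((n : ℝ) * ξ i) ≤ 2 ^ (p i) / (H : ℝ) then 1 else 0) := by
    intro n
    refine (Finset.prod_le_prod (fun i _ => KK_nonneg _ _) fun i _ => KK_le H hH _).trans ?_
    rw [Finset.prod_univ_sum]
    refine Finset.sum_le_sum fun p _ => ?_
    rw [Finset.prod_mul_distrib, Finset.prod_boole]
    simp
  have h2 : ∀ p ∈ Fintype.piFinset (fun _ : Fin m => range (J + 1)),
      ∑ n ∈ Icc 1 N, (∏ i, (4 * (H : ℝ) / 4 ^ (p i))) *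
        (if ∀ i, dn ((n : ℝ) * ξ i) ≤ 2 ^ (p i) / (H : ℝ) then 1 else 0) ≤
      C * N * (H : ℝ) ^ τ * ∏ i, ((4 : ℝ) / 2 ^ (p i)) := by
    intro p hp
    rw [Fintype.mem_piFinset] at hp
    rw [← Finset.mul_sum, Finset.sum_boole]
    have h3 := hcnt H hH N (fun i => 2 ^ (p i) / (H : ℝ)) (fun i => by
      apply div_le_div_of_nonneg_right _ hH0.le
      exact one_le_pow₀ (by norm_num)) (fun i => by
      rw [div_le_one hH0]
      refine le_trans ?_ hH2
      exact pow_le_pow_right₀ (by norm_num) (Nat.lt_succ_iff.1 (Finset.mem_range.1 (hp i))))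
    have h4 : (0 : ℝ) ≤ ∏ i, (4 * (H : ℝ) / 4 ^ (p i)) := by positivity
    refine (mul_le_mul_of_nonneg_left h3 h4).trans (le_of_eq ?_)
    have h5 : (∏ i, (4 * (H : ℝ) / 4 ^ (p i))) * ∏ i, (2 ^ (p i) / (H : ℝ)) =
        ∏ i, ((4 : ℝ) / 2 ^ (p i)) := by
      rw [← Finset.prod_mul_distrib]
      refine Finset.prod_congr rfl fun i _ => ?_
      have h6 : (4 : ℝ) ^ (p i) = 2 ^ (p i) * 2 ^ (p i) := by
        rw [← mul_pow]; norm_num
      rw [h6]
      field_simp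
    rw [← h5]
    ring
  calc ∑ n ∈ Icc 1 N, ∏ i, KK H ((n : ℝ) * ξ i)
      ≤ ∑ n ∈ Icc 1 N, ∑ p ∈ Fintype.piFinset (fun _ : Fin m => range (J + 1)),
        (∏ i, (4 * (H : ℝ) / 4 ^ (p i))) *
          (if ∀ i, dn ((n : ℝ) * ξ i) ≤ 2 ^ (p i) / (H : ℝ) then 1 else 0) :=
        Finset.sum_le_sum fun n _ => h1 n
    _ = ∑ p ∈ Fintype.piFinset (fun _ : Fin m => range (J + 1)), ∑ n ∈ Icc 1 N,
        (∏ i, (4 * (H : ℝ) / 4 ^ (p i))) *
          (if ∀ i, dn ((n : ℝ) * ξ i) ≤ 2 ^ (p i) / (H : ℝ) then 1 else 0) :=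
        Finset.sum_comm
    _ ≤ ∑ p ∈ Fintype.piFinset (fun _ : Fin m => range (J + 1)),
        C * N * (H : ℝ) ^ τ * ∏ i, ((4 : ℝ) / 2 ^ (p i)) := Finset.sum_le_sum h2
    _ = C * N * (H : ℝ) ^ τ * (∑ j ∈ range (J + 1), (4 : ℝ) / 2 ^ j) ^ m := by
        rw [← Finset.mul_sum]
        congr 1
        have h7 := Finset.prod_univ_sum (fun _ : Fin m => range (J + 1))
          (fun _ j => (4 : ℝ) / 2 ^ j)
        rw [← h7, Finset.prod_const, Finset.card_univ, Fintype.card_fin]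
    _ ≤ C * N * (H : ℝ) ^ τ * 8 ^ m := by
        apply mul_le_mul_of_nonneg_left _ (by positivity)
        apply pow_le_pow_left₀ _ (sum_two J)
        exact Finset.sum_nonneg fun j _ => by positivity
    _ = C * 8 ^ m * N * (H : ℝ) ^ τ := by ring

end Pool.Agent.N965.LN
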