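import Pool.Agent.N965.LN.Stm

set_option autoImplicit false

/-!
# LN/SMALL and LN/LOW
-/

open Finset Filter Topology

namespace Pool.Agent.N965.LN

namespace Low

/-- a positive lower bound on a finite set -/
theorem exists_mu {α : Type*} (S : Finset α) (f : α → ℝ) (hf : ∀ x ∈ S, 0 < f x) :
    ∃ μ : ℝ, 0 < μ ∧ ∀ x ∈ S, μ ≤ f x := by
  classical
  induction S using Finset.induction_on with
  | empty => exact ⟨1, one_pos, fun x hx => absurd hx (Finset.notMem_empty x)⟩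
  | insert a S _ ih =>
    obtain ⟨μ, hμ, h⟩ := ih fun x hx => hf x (Finset.mem_insert_of_mem hx)
    refine ⟨min μ (f a), lt_min hμ (hf a (Finset.mem_insert_self a S)), fun x hx => ?_⟩
    rcases Finset.mem_insert.1 hx with rfl | hx
    · exact min_le_right _ _
    · exact (min_le_left _ _).trans (h x hx)

theorem dn_pos {m : ℕ} {ξ : Fin m → ℝ} (hξ : Indep ξ) {b : ℕ} (hb : 1 ≤ b) (a₀ : ℤ)
    {a : Fin m → ℤ} (ha : a ≠ 0) {q : ℕ} (hq : 1 ≤ q) : 0 < dn ((q : ℝ) * num ξ b a₀ a) := by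
  rw [dn, abs_pos]
  intro h
  apply ha
  have hb0 : (b : ℝ) ≠ 0 := by positivity
  set p := round ((q : ℝ) * num ξ b a₀ a) with hp
  have h1 : (q : ℝ) * ((a₀ : ℝ) + ∑ i, (a i : ℝ) * ξ i) - (p : ℝ) * b = 0 := by
    have h2 : (q : ℝ) * num ξ b a₀ a = p := by linarith
    rw [num] at h2
    field_simp at h2
    linarith
  have h3 : (((q : ℤ) * a₀ - p * b : ℤ) : ℝ) + ∑ i, ((((q : ℤ) • a) i : ℤ) : ℝ) * ξ i = 0 := by
    have h4 : ∑ i, ((((q : ℤ) • a) i : ℤ) : ℝ) * ξ i = (q : ℝ) * ∑ i, (a i : ℝ) * ξ i := by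
      rw [Finset.mul_sum]
      refine Finset.sum_congr rfl fun i _ => ?_
      simp only [Pi.smul_apply, smul_eq_mul]
      push_cast
      ring
    rw [h4]
    push_cast
    linarith
  have h5 := hξ _ _ h3
  have hq0 : (q : ℤ) ≠ 0 := by positivity
  exact (smul_eq_zero.1 h5).resolve_left hq0

theorem small : S_SMALL := by
  classical
  intro m ξ hξ ψ H X
  let S : Finset (ℕ × ℤ × (Fin m → ℤ) × ℕ) :=
    (Icc 1 H) ×ˢ (Icc (-(H : ℤ)) H) ×ˢ ((box m H).filter fun a => a ≠ 0) ×ˢ (Icc 1 X)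
  obtain ⟨μ, hμ, h⟩ := exists_mu S
    (fun z => dn ((z.2.2.2 : ℝ) * num ξ z.1 z.2.1 z.2.2.1) / z.2.2.2) (by
      rintro ⟨b, a₀, a, q⟩ hz
      simp only [S, Finset.mem_product, Finset.mem_filter, Finset.mem_Icc] at hz
      obtain ⟨⟨hb, -⟩, -, ⟨-, ha⟩, hq, -⟩ := hz
      have hq0 : (0 : ℝ) < q := by exact_mod_cast hq
      exact div_pos (dn_pos hξ hb a₀ ha hq) hq0)
  set M : ℝ := 1 + ∑ q ∈ Icc 1 X, |ψ q| with hM
  have hM0 : 0 < M := by
    have : 0 ≤ ∑ q ∈ Icc 1 X, |ψ q| := Finset.sum_nonneg fun q _ => abs_nonneg _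
    linarith
  refine ⟨μ / (2 * M), by positivity, fun b a₀ a hb hbH ha₀ ha ha0 p q hq hqX => ?_⟩
  have hq0 : (0 : ℝ) < q := by exact_mod_cast hq
  have hq1 : (1 : ℝ) ≤ q := by exact_mod_cast hq
  have h1 : μ ≤ dn ((q : ℝ) * num ξ b a₀ a) / q := by
    refine h (b, a₀, a, q) ?_
    simp only [S, Finset.mem_product, Finset.mem_filter]
    exact ⟨Finset.mem_Icc.2 ⟨hb, hbH⟩, ha₀, ⟨ha, ha0⟩, Finset.mem_Icc.2 ⟨hq, hqX⟩⟩
  have h2 : dn ((q : ℝ) * num ξ b a₀ a) ≤ |(q : ℝ) * num ξ b a₀ a - p| := round_le _ p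
  have h3 : |num ξ b a₀ a - (p : ℝ) / q| = |(q : ℝ) * num ξ b a₀ a - p| / q := by
    rw [eq_div_iff hq0.ne', ← abs_of_pos hq0, ← abs_mul, abs_of_pos hq0]
    congr 1
    field_simp
  have h4 : |ψ q| ≤ M := by
    have : |ψ q| ≤ ∑ q ∈ Icc 1 X, |ψ q| :=
      Finset.single_le_sum (f := fun q => |ψ q|) (fun q _ => abs_nonneg _)
        (Finset.mem_Icc.2 ⟨hq, hqX⟩)
    linarith
  have h5 : μ / (2 * M) * ψ q / q ≤ μ / 2 := by
    have h6 : μ / (2 * M) * ψ q / q ≤ μ / (2 * M) * |ψ q| := by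
      rw [div_le_iff₀ hq0]
      have h7 : μ / (2 * M) * ψ q ≤ μ / (2 * M) * |ψ q| :=
        mul_le_mul_of_nonneg_left (le_abs_self _) (by positivity)
      have h8 : 0 ≤ μ / (2 * M) * |ψ q| := by positivity
      nlinarith
    have h7 : μ / (2 * M) * |ψ q| ≤ μ / (2 * M) * M :=
      mul_le_mul_of_nonneg_left h4 (by positivity)
    have h8 : μ / (2 * M) * M = μ / 2 := by field_simp
    linarith
  rw [h3]
  have h6 : dn ((q : ℝ) * num ξ b a₀ a) / q ≤ |(q : ℝ) * num ξ b a₀ a - p| / q :=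
    div_le_div_of_nonneg_right h2 hq0.le
  linarith

/-! ### LOW -/

/-- the coprime pairs -/
def cop (H : ℕ) : Finset (ℕ × ℕ) := (Icc 1 H ×ˢ Icc 1 H).filter fun z => Nat.Coprime z.1 z.2

theorem sum_inv_sq (n : ℕ) (hn : 2 ≤ n) :
    ∑ g ∈ Icc 2 n, 1 / (g : ℝ) ^ 2 ≤ 3 / 4 - 1 / (n : ℝ) := by
  induction n, hn using Nat.le_induction with
  | base => norm_num
  | succ n hn ih =>
    rw [Finset.sum_Icc_succ_top (by omega)]
    have hn0 : (0 : ℝ) < n := by positivity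
    have h1 : 1 / ((n + 1 : ℕ) : ℝ) ^ 2 ≤ 1 / (n : ℝ) - 1 / ((n + 1 : ℕ) : ℝ) := by
      push_cast
      rw [div_sub_div _ _ hn0.ne' (by positivity), div_le_div_iff₀ (by positivity) (by positivity)]
      nlinarith
    linarith

theorem sum_inv_sq' (n : ℕ) : ∑ g ∈ Icc 2 n, 1 / (g : ℝ) ^ 2 ≤ 3 / 4 := by
  rcases Nat.lt_or_ge n 2 with hn | hn
  · rw [Finset.Icc_eq_empty (by omega)]
    norm_num
  · refine (sum_inv_sq n hn).trans ?_
    have : (0 : ℝ) ≤ 1 / (n : ℝ) := by positivity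
    linarith

theorem card_dvd (g H : ℕ) : ((Icc 1 H).filter fun b => g ∣ b).card = H / g := by
  have : Icc 1 H = Ioc 0 H := by
    ext x; simp [Nat.succ_le_iff]
  rw [this]
  exact Nat.Ioc_filter_dvd_card_eq_div H g

theorem card_cop (H : ℕ) : 1 / 4 * (H : ℝ) ^ 2 ≤ ((cop H).card : ℝ) := by
  classical
  have h1 : (cop H).card + ((Icc 1 H ×ˢ Icc 1 H).filter fun z : ℕ × ℕ =>
      ¬ Nat.Coprime z.1 z.2).card = H ^ 2 := by
    rw [cop, Finset.card_filter_add_card_filter_not]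
    rw [Finset.card_product, Nat.card_Icc]
    simp [pow_two]
  have h2 : ((Icc 1 H ×ˢ Icc 1 H).filter fun z : ℕ × ℕ => ¬ Nat.Coprime z.1 z.2) ⊆
      (Icc 2 H).biUnion fun g => ((Icc 1 H).filter fun b => g ∣ b) ×ˢ
        ((Icc 1 H).filter fun b => g ∣ b) := by
    rintro ⟨a, b⟩ hz
    simp only [Finset.mem_filter, Finset.mem_product, Finset.mem_Icc] at hz
    obtain ⟨⟨ha, hb⟩, hc⟩ := hz
    have hg0 : 0 < Nat.gcd a b := Nat.gcd_pos_of_pos_left _ (by omega)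
    have hg1 : Nat.gcd a b ≠ 1 := hc
    have hga : Nat.gcd a b ≤ a := Nat.gcd_le_left _ (by omega)
    refine Finset.mem_biUnion.2 ⟨Nat.gcd a b, Finset.mem_Icc.2 ⟨by omega, by omega⟩, ?_⟩
    simp only [Finset.mem_product, Finset.mem_filter, Finset.mem_Icc]
    exact ⟨⟨ha, Nat.gcd_dvd_left _ _⟩, hb, Nat.gcd_dvd_right _ _⟩
  have h3 : (((Icc 1 H ×ˢ Icc 1 H).filter fun z : ℕ × ℕ => ¬ Nat.Coprime z.1 z.2).card : ℝ) ≤
      3 / 4 * (H : ℝ) ^ 2 := by
    have h4 := (Finset.card_le_card h2).trans Finset.card_biUnion_le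
    have h5 : (((Icc 1 H ×ˢ Icc 1 H).filter fun z : ℕ × ℕ => ¬ Nat.Coprime z.1 z.2).card : ℝ) ≤
        ∑ g ∈ Icc 2 H, (((H / g : ℕ) : ℝ) * ((H / g : ℕ) : ℝ)) := by
      have : (((Icc 1 H ×ˢ Icc 1 H).filter fun z : ℕ × ℕ => ¬ Nat.Coprime z.1 z.2).card : ℝ) ≤
          ((∑ g ∈ Icc 2 H, (((Icc 1 H).filter fun b => g ∣ b) ×ˢ
            ((Icc 1 H).filter fun b => g ∣ b)).card : ℕ) : ℝ) := by
        exact_mod_cast h4
      refine this.trans (le_of_eq ?_)
      rw [Nat.cast_sum]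
      refine Finset.sum_congr rfl fun g _ => ?_
      rw [Finset.card_product, card_dvd, Nat.cast_mul]
    refine h5.trans ?_
    have h6 : ∀ g ∈ Icc 2 H, (((H / g : ℕ) : ℝ) * ((H / g : ℕ) : ℝ)) ≤
        (H : ℝ) ^ 2 * (1 / (g : ℝ) ^ 2) := by
      intro g hg
      have h7 : ((H / g : ℕ) : ℝ) ≤ (H : ℝ) / g := Nat.cast_div_le
      have h8 : (0 : ℝ) ≤ ((H / g : ℕ) : ℝ) := Nat.cast_nonneg _
      calc (((H / g : ℕ) : ℝ) * ((H / g : ℕ) : ℝ)) ≤ ((H : ℝ) / g) * ((H : ℝ) / g) :=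
            mul_le_mul h7 h7 h8 (h8.trans h7)
        _ = (H : ℝ) ^ 2 * (1 / (g : ℝ) ^ 2) := by ring
    refine (Finset.sum_le_sum h6).trans ?_
    rw [← Finset.mul_sum]
    have := mul_le_mul_of_nonneg_left (sum_inv_sq' H) (sq_nonneg (H : ℝ))
    linarith
  have h4 : ((cop H).card : ℝ) + (((Icc 1 H ×ˢ Icc 1 H).filter fun z : ℕ × ℕ =>
      ¬ Nat.Coprime z.1 z.2).card : ℝ) = (H : ℝ) ^ 2 := by
    exact_mod_cast h1
  linarith

theorem card_box (m H : ℕ) : (H : ℝ) ^ m ≤ ((box m H).card : ℝ) := by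
  have h1 : (box m H).card = (2 * H + 1) ^ m := by
    rw [box, Fintype.card_piFinset]
    rw [Finset.prod_const, Finset.card_univ, Fintype.card_fin, Int.card_Icc]
    congr 1
    omega
  rw [h1]
  push_cast
  refine pow_le_pow_left₀ (by positivity) ?_ m
  have : (0 : ℝ) ≤ H := by positivity
  linarith

theorem int_indep {m : ℕ} {e : Fin (m + 1) → ℝ} (he : LinearIndependent ℚ e)
    (c : Fin (m + 1) → ℚ) (h : ∑ i, (c i : ℝ) * e i = 0) : ∀ i, c i = 0 := by
  have h1 : ∑ i, c i • e i = 0 := by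
    rw [← h]
    refine Finset.sum_congr rfl fun i _ => ?_
    rw [Rat.smul_def]
  exact Fintype.linearIndependent_iff.1 he c h1

theorem eq_of_cop {a b a' b' : ℕ} (ha : 1 ≤ a) (hab : Nat.Coprime b a) (hab' : Nat.Coprime b' a')
    (h : a * b' = a' * b) : a = a' ∧ b = b' := by
  have h1 : a ∣ a' := by
    have : a ∣ a' * b := ⟨b', h.symm⟩
    exact hab.symm.dvd_of_dvd_mul_right this
  have h2 : a' ∣ a := by
    have : a' ∣ a * b' := ⟨b, h⟩
    exact hab'.symm.dvd_of_dvd_mul_right this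
  have h3 := Nat.dvd_antisymm h1 h2
  subst h3
  exact ⟨rfl, (Nat.eq_of_mul_eq_mul_left (by omega) h).symm⟩

theorem low : S_LOW := by
  classical
  intro m hm e he he0 H hH
  have hfin : (El e H).Finite := by
    refine Set.Finite.subset (((Fintype.piFinset fun _ : Fin (m + 1) =>
      Icc (-(H : ℤ)) H) ×ˢ Icc 1 H).finite_toSet.image
        fun z : (Fin (m + 1) → ℤ) × ℕ => (∑ i, (z.1 i : ℝ) * e i) / z.2) ?_
    rintro α ⟨a, b, ha, hb, hbH, rfl⟩
    refine ⟨(a, b), ?_, rfl⟩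
    rw [Finset.mem_coe, Finset.mem_product, Fintype.mem_piFinset, Finset.mem_Icc]
    exact ⟨fun i => Finset.mem_Icc.2 (abs_le.1 (ha i)), hb, hbH⟩
  refine ⟨hfin, ?_⟩
  let i1 : Fin (m + 1) := ⟨1, by omega⟩
  have hi1 : i1 ≠ 0 := by
    intro h
    have := congrArg Fin.val h
    simp [i1] at this
  -- the vector
  let vec : (ℕ × ℕ) × (Fin m → ℤ) → Fin (m + 1) → ℤ := fun z =>
    Fin.insertNth (α := fun _ => ℤ) i1 (z.1.2 : ℤ) z.2
  let f : (ℕ × ℕ) × (Fin m → ℤ) → ℝ := fun z => (∑ i, (vec z i : ℝ) * e i) / z.1.1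
  have hv1 : ∀ z, vec z i1 = z.1.2 := fun z => by simp [vec]
  have hv2 : ∀ z i, vec z (i1.succAbove i) = z.2 i := fun z i => by simp [vec]
  have hmem : ∀ z ∈ cop H ×ˢ box m H, f z ∈ {α ∈ El e H | Irrational α} := by
    rintro ⟨⟨b, a1⟩, x⟩ hz
    simp only [cop, box, Finset.mem_product, Finset.mem_filter, Fintype.mem_piFinset,
      Finset.mem_Icc] at hz
    obtain ⟨⟨⟨⟨hb, hbH⟩, ha, haH⟩, hc⟩, hx⟩ := hz
    refine ⟨⟨vec ((b, a1), x), b, ?_, hb, hbH, rfl⟩, ?_⟩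
    · intro i
      rcases Fin.eq_self_or_eq_succAbove i1 i with rfl | ⟨j, rfl⟩
      · rw [hv1]
        rw [abs_of_nonneg (by positivity)]
        exact_mod_cast haH
      · rw [hv2]
        exact abs_le.2 (hx j)
    · rintro ⟨r, hr⟩
      have hb0 : (b : ℝ) ≠ 0 := by positivity
      have h1 : ∑ i, (vec ((b, a1), x) i : ℝ) * e i = (b : ℝ) * r := by
        have h2 : (r : ℝ) = (∑ i, (vec ((b, a1), x) i : ℝ) * e i) / b := hr
        rw [h2]
        field_simp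
      have h2 := int_indep he
        (fun i => (vec ((b, a1), x) i : ℚ) - if i = 0 then (b : ℚ) * r else 0) (by
          have h3 : ∑ i, (((if i = 0 then (b : ℚ) * r else 0 : ℚ) : ℝ)) * e i = (b : ℝ) * r := by
            rw [Finset.sum_eq_single 0]
            · rw [if_pos rfl, he0]; push_cast; ring
            · intro i _ hi
              rw [if_neg hi]; simp
            · intro h; exact absurd (Finset.mem_univ _) h
          have h4 : ∑ i, ((((vec ((b, a1), x) i : ℚ) - if i = 0 then (b : ℚ) * r else 0 : ℚ)) : ℝ) *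
              e i = ∑ i, (vec ((b, a1), x) i : ℝ) * e i -
                ∑ i, (((if i = 0 then (b : ℚ) * r else 0 : ℚ) : ℝ)) * e i := by
            rw [← Finset.sum_sub_distrib]
            refine Finset.sum_congr rfl fun i _ => ?_
            rw [Rat.cast_sub, sub_mul]
            push_cast
            rfl
          rw [h4, h1, h3, sub_self]) i1
      simp only [hv1, if_neg hi1, sub_zero] at h2
      have h3 : a1 = 0 := by exact_mod_cast h2
      omega
  have hinj : Set.InjOn f (cop H ×ˢ box m H : Finset _) := by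
    rintro ⟨⟨b, a1⟩, x⟩ hz ⟨⟨b', a1'⟩, x'⟩ hz' heq
    simp only [cop, box, Finset.coe_product, Set.mem_prod, Finset.mem_coe, Finset.mem_product,
      Finset.mem_filter, Fintype.mem_piFinset, Finset.mem_Icc] at hz hz'
    obtain ⟨⟨⟨⟨hb, hbH⟩, ha, haH⟩, hc⟩, hx⟩ := hz
    obtain ⟨⟨⟨⟨hb', hbH'⟩, ha', haH'⟩, hc'⟩, hx'⟩ := hz'
    have hb0 : (b : ℝ) ≠ 0 := by positivity
    have hb0' : (b' : ℝ) ≠ 0 := by positivity
    have h1 : (∑ i, (vec ((b, a1), x) i : ℝ) * e i) * b' =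
        (∑ i, (vec ((b', a1'), x') i : ℝ) * e i) * b := by
      have h2 : (∑ i, (vec ((b, a1), x) i : ℝ) * e i) / b =
        (∑ i, (vec ((b', a1'), x') i : ℝ) * e i) / b' := heq
      rw [div_eq_div_iff hb0 hb0'] at h2
      exact h2
    have h2 := int_indep he
      (fun i => (vec ((b, a1), x) i : ℚ) * b' - (vec ((b', a1'), x') i : ℚ) * b) (by
        rw [← sub_eq_zero.2 h1, Finset.sum_mul, Finset.sum_mul, ← Finset.sum_sub_distrib]
        refine Finset.sum_congr rfl fun i _ => ?_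
        push_cast
        ring)
    have h3 : ∀ i, vec ((b, a1), x) i * b' = vec ((b', a1'), x') i * b := by
      intro i
      have h4 := sub_eq_zero.1 (h2 i)
      exact_mod_cast h4
    have h4 := h3 i1
    rw [hv1, hv1] at h4
    have h5 : a1 * b' = a1' * b := by exact_mod_cast h4
    obtain ⟨h6, h7⟩ := eq_of_cop ha hc hc' h5
    subst h6 h7
    have h8 : x = x' := by
      funext i
      have h9 := h3 (i1.succAbove i)
      rw [hv2, hv2] at h9
      exact Int.eq_of_mul_eq_mul_right (by positivity) h9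
    rw [h8]
  have h1 : (cop H ×ˢ box m H).card ≤ {α ∈ El e H | Irrational α}.ncard := by
    rw [← Finset.card_image_of_injOn hinj, ← Set.ncard_coe_finset]
    refine Set.ncard_le_ncard ?_ (hfin.subset fun α h => h.1)
    intro α hα
    rw [Finset.coe_image] at hα
    obtain ⟨z, hz, rfl⟩ := hα
    exact hmem z hz
  have h2 : ((cop H ×ˢ box m H).card : ℝ) ≤ ({α ∈ El e H | Irrational α}.ncard : ℝ) := by
    exact_mod_cast h1
  refine le_trans ?_ h2
  rw [Finset.card_product, Nat.cast_mul]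
  have h3 := card_cop H
  have h4 := card_box m H
  calc 1 / 4 * (H : ℝ) ^ (m + 2) = (1 / 4 * (H : ℝ) ^ 2) * (H : ℝ) ^ m := by ring
    _ ≤ ((cop H).card : ℝ) * ((box m H).card : ℝ) :=
      mul_le_mul h3 h4 (by positivity) (by positivity)

end Low

/-- SMALL -/
theorem t_SMALL : S_SMALL := Low.small

/-- LOW -/
theorem t_LOW : S_LOW := Low.low

end Pool.Agent.N965.LN
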