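import Pool.Agent.N965.LN.Stm

set_option autoImplicit false

/-!
# Project LN (helper965), part PS (helper40): partial summation
-/

open Finset Filter Topology

namespace Pool.Agent.N965.LN

namespace Ps40

theorem top (g : ℕ → ℝ) (n : ℕ) : ∑ t ∈ Icc 1 (n + 1), g t = ∑ t ∈ Icc 1 n, g t + g (n + 1) :=
  Finset.sum_Icc_succ_top (Nat.succ_le_succ (Nat.zero_le n)) g

theorem abel (f : ℕ → ℝ) (T : ℕ) : ∑ t ∈ Icc 1 (T + 1), f t / t =
    (∑ t ∈ Icc 1 (T + 1), f t) / ((T : ℝ) + 1) +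
      ∑ s ∈ Icc 1 T, (∑ t ∈ Icc 1 s, f t) / ((s : ℝ) * ((s : ℝ) + 1)) := by
  induction T with
  | zero => simp
  | succ T ih =>
    rw [top (fun t => f t / (t : ℝ)) (T + 1), ih, top f (T + 1),
      top (fun s : ℕ => (∑ t ∈ Icc 1 s, f t) / ((s : ℝ) * ((s : ℝ) + 1))) T]
    have h1 : (T : ℝ) + 1 ≠ 0 := by positivity
    have h2 : (T : ℝ) + 1 + 1 ≠ 0 := by positivity
    push_cast
    field_simp
    ring

theorem rp {x τ : ℝ} (hx : 0 < x) : x ^ (2 + 2 * τ) = x ^ (2 * τ) * (x * x) := by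
  rw [add_comm, Real.rpow_add hx, Real.rpow_two, sq]

theorem rp1 {x τ : ℝ} (hx : 0 < x) : x ^ (1 + 2 * τ) = x ^ (2 * τ) * x := by
  rw [add_comm, Real.rpow_add hx, Real.rpow_one]

end Ps40

open Ps40 in
/-- PS: partial summation -/
theorem t_PS : S_PS := by
  intro f A τ T _ hA hτ hF
  rcases T with _ | T
  · simp only [CharP.cast_eq_zero]
    have h0 : (0 : ℝ) ≤ (0 : ℝ) ^ (1 + 2 * τ) := Real.rpow_nonneg le_rfl _
    have h1 : Icc 1 0 = (∅ : Finset ℕ) := rfl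
    rw [h1, Finset.sum_empty]
    positivity
  · rw [abel]
    have hT : (0 : ℝ) < (T : ℝ) + 1 := by positivity
    have hc : ((T + 1 : ℕ) : ℝ) = (T : ℝ) + 1 := by push_cast; ring
    have hA1 : 0 ≤ A * ((T : ℝ) + 1) ^ (2 * τ) := by positivity
    have h1 : (∑ t ∈ Icc 1 (T + 1), f t) / ((T : ℝ) + 1) ≤ A * ((T : ℝ) + 1) ^ (1 + 2 * τ) := by
      rw [div_le_iff₀ hT]
      refine (hF (T + 1) le_rfl).trans (le_of_eq ?_)
      rw [hc, rp hT, rp1 hT]
      ring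
    have h2 : ∑ s ∈ Icc 1 T, (∑ t ∈ Icc 1 s, f t) / ((s : ℝ) * ((s : ℝ) + 1)) ≤
        ∑ s ∈ Icc 1 T, A * ((T : ℝ) + 1) ^ (2 * τ) := by
      refine Finset.sum_le_sum fun s hs => ?_
      obtain ⟨hs1, hs2⟩ := Finset.mem_Icc.1 hs
      have hs0 : (0 : ℝ) < s := by exact_mod_cast hs1
      have hsT : (s : ℝ) ≤ (T : ℝ) + 1 := by
        have : (s : ℝ) ≤ T := by exact_mod_cast hs2
        linarith
      rw [div_le_iff₀ (by positivity)]
      have h3 := hF s (by omega)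
      rw [rp hs0] at h3
      refine h3.trans ?_
      have h4 : (s : ℝ) ^ (2 * τ) ≤ ((T : ℝ) + 1) ^ (2 * τ) :=
        Real.rpow_le_rpow hs0.le hsT (by linarith)
      have h5 : A * ((s : ℝ) ^ (2 * τ) * ((s : ℝ) * s)) ≤
          A * (((T : ℝ) + 1) ^ (2 * τ) * ((s : ℝ) * ((s : ℝ) + 1))) := by
        refine mul_le_mul_of_nonneg_left ?_ hA
        refine mul_le_mul h4 ?_ (by positivity) (by positivity)
        nlinarith
      refine h5.trans (le_of_eq (by ring))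
    rw [Finset.sum_const, Nat.card_Icc, Nat.add_sub_cancel, nsmul_eq_mul] at h2
    have h6 : (T : ℝ) * (A * ((T : ℝ) + 1) ^ (2 * τ)) ≤ A * ((T : ℝ) + 1) ^ (1 + 2 * τ) := by
      rw [rp1 hT]
      nlinarith
    rw [hc]
    linarith

end Pool.Agent.N965.LN
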