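import Pool.Agent.N965.LN.Stm

set_option autoImplicit false

/-!
# Project LN (helper965), leaves INJ and PSI (helper402)
-/

open Finset Filter Topology

namespace Pool.Agent.N965.LN

namespace PsiAux

theorem step (ψ : ℕ → ℝ) (ha : Antitone ψ) (g : ℕ) (T : ℕ) :
    (g : ℝ) * ∑ t ∈ Icc 1 T, ψ (g * t) ≤ ∑ k ∈ range (g * T), ψ k := by
  induction T with
  | zero => simp
  | succ T ih =>
    rw [Finset.sum_Icc_succ_top (by omega), mul_add, Nat.mul_succ, Finset.sum_range_add]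
    refine add_le_add ih ?_
    have : ∑ _x ∈ range g, ψ (g * T + g) ≤ ∑ x ∈ range g, ψ (g * T + x) := by
      refine Finset.sum_le_sum fun x hx => ha ?_
      have := Finset.mem_range.mp hx
      omega
    simpa using this

theorem inv_sq (H : ℕ) : ∑ g ∈ Icc 1 H, 1 / ((g : ℝ) * g) ≤ 2 - 1 / (H : ℝ) := by
  induction H with
  | zero => norm_num
  | succ n ih =>
    rw [Finset.sum_Icc_succ_top (by omega)]
    by_cases hn : n = 0
    · subst hn; norm_num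
    have h1 : (1 : ℝ) ≤ n := by exact_mod_cast Nat.one_le_iff_ne_zero.mpr hn
    have h2 : 1 / (((n + 1 : ℕ) : ℝ) * ((n + 1 : ℕ) : ℝ)) ≤
        1 / (n : ℝ) - 1 / ((n + 1 : ℕ) : ℝ) := by
      push_cast
      rw [div_sub_div _ _ (by positivity) (by positivity)]
      rw [div_le_div_iff₀ (by positivity) (by positivity)]
      nlinarith
    linarith

end PsiAux

/-- PSI -/
theorem t_PSI : S_PSI := by
  intro ψ h0 ha hs
  refine ⟨fun n => ?_, fun H X => ?_⟩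
  · have h1 : ∑ _x ∈ range n, ψ n ≤ ∑ x ∈ range n, ψ x :=
      Finset.sum_le_sum fun x hx => ha (Finset.mem_range.mp hx).le
    have h2 : ∑ x ∈ range n, ψ x ≤ ∑' n, ψ n := hs.sum_le_tsum _ fun i _ => h0 i
    have h3 : ∑ _x ∈ range n, ψ n = (n : ℝ) * ψ n := by simp
    linarith
  · have hS : 0 ≤ ∑' n, ψ n := tsum_nonneg h0
    have h1 : ∑ g ∈ Icc 1 H, 1 / (g : ℝ) * ∑ t ∈ Icc 1 (X / g), ψ (g * t) ≤
        ∑ g ∈ Icc 1 H, 1 / ((g : ℝ) * g) * ∑' n, ψ n := by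
      refine Finset.sum_le_sum fun g hg => ?_
      have hg1 : (1 : ℝ) ≤ g := by exact_mod_cast (Finset.mem_Icc.mp hg).1
      have h2 := PsiAux.step ψ ha g (X / g)
      have h3 : ∑ x ∈ range (g * (X / g)), ψ x ≤ ∑' n, ψ n := hs.sum_le_tsum _ fun i _ => h0 i
      have h4 : ∑ t ∈ Icc 1 (X / g), ψ (g * t) ≤ 1 / (g : ℝ) * ∑' n, ψ n := by
        rw [one_div, inv_mul_eq_div, le_div_iff₀ (by linarith)]
        linarith
      calc 1 / (g : ℝ) * ∑ t ∈ Icc 1 (X / g), ψ (g * t)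
          ≤ 1 / (g : ℝ) * (1 / (g : ℝ) * ∑' n, ψ n) :=
            mul_le_mul_of_nonneg_left h4 (by positivity)
        _ = 1 / ((g : ℝ) * g) * ∑' n, ψ n := by
            rw [← mul_assoc]
            congr 1
            field_simp
    rw [← Finset.sum_mul] at h1
    refine h1.trans (mul_le_mul_of_nonneg_right ?_ hS)
    have h5 := PsiAux.inv_sq H
    have h6 : (0 : ℝ) ≤ 1 / (H : ℝ) := by positivity
    linarith

/-- INJ -/
theorem t_INJ : S_INJ := by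
  intro X H Φ hΦ
  rw [← Finset.sum_product']
  have hR : ∑ g ∈ Icc 1 H, ∑ b ∈ Icc 1 (H / g), ∑ t ∈ Icc 1 (X / g), Φ g b t =
      ∑ p ∈ (Icc 1 H).sigma (fun g => Icc 1 (H / g) ×ˢ Icc 1 (X / g)), Φ p.1 p.2.1 p.2.2 := by
    rw [Finset.sum_sigma]
    refine Finset.sum_congr rfl fun g _ => ?_
    rw [Finset.sum_product]
  rw [hR]
  let e : ℕ × ℕ → (Σ _ : ℕ, ℕ × ℕ) := fun p =>
    ⟨Nat.gcd p.2 p.1, (p.2 / Nat.gcd p.2 p.1, p.1 / Nat.gcd p.2 p.1)⟩
  have hinj : Set.InjOn e (Icc 1 X ×ˢ Icc 1 H : Finset (ℕ × ℕ)) := by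
    rintro ⟨q, b⟩ h1 ⟨q', b'⟩ h2 h
    simp only [e, Sigma.mk.injEq, heq_eq_eq, Prod.mk.injEq] at h
    obtain ⟨hg, hb, hq⟩ := h
    have e1 : b = b' := by
      have a1 := Nat.div_mul_cancel (Nat.gcd_dvd_left b q)
      have a2 := Nat.div_mul_cancel (Nat.gcd_dvd_left b' q')
      rw [← a1, ← a2, hb, hg]
    have e2 : q = q' := by
      have a1 := Nat.div_mul_cancel (Nat.gcd_dvd_right b q)
      have a2 := Nat.div_mul_cancel (Nat.gcd_dvd_right b' q')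
      rw [← a1, ← a2, hq, hg]
    rw [e1, e2]
  have hL : ∑ p ∈ Icc 1 X ×ˢ Icc 1 H,
      Φ (Nat.gcd p.2 p.1) (p.2 / Nat.gcd p.2 p.1) (p.1 / Nat.gcd p.2 p.1) =
      ∑ s ∈ (Icc 1 X ×ˢ Icc 1 H).image e, Φ s.1 s.2.1 s.2.2 := by
    rw [Finset.sum_image hinj]
  rw [hL]
  refine Finset.sum_le_sum_of_subset_of_nonneg ?_ fun s _ _ => hΦ _ _ _
  intro s hs
  rw [Finset.mem_image] at hs
  obtain ⟨⟨q, b⟩, hp, rfl⟩ := hs
  simp only [Finset.mem_product, Finset.mem_Icc] at hp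
  simp only [e, Finset.mem_sigma, Finset.mem_product, Finset.mem_Icc]
  obtain ⟨⟨hq1, hq2⟩, hb1, hb2⟩ := hp
  have hgpos : 0 < Nat.gcd b q := Nat.gcd_pos_of_pos_left _ hb1
  have hgb : Nat.gcd b q ≤ b := Nat.gcd_le_left _ hb1
  have hgq : Nat.gcd b q ≤ q := Nat.gcd_le_right _ hq1
  refine ⟨⟨hgpos, hgb.trans hb2⟩, ⟨Nat.div_pos hgb hgpos, Nat.div_le_div_right hb2⟩,
    Nat.div_pos hgq hgpos, Nat.div_le_div_right hq2⟩

end Pool.Agent.N965.LN
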