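import Pool.Agent.N965.LN.Stm

set_option autoImplicit false

/-!
# Project LN, part RES: counting `a₀` in residue classes (helper380)
-/

open Finset

namespace Pool.Agent.N965.LN

namespace ResH

theorem dn_le (x : ℝ) (n : ℤ) : dn x ≤ |x - n| := round_le x n

/-- a residue class -/
theorem card_class (H b : ℕ) (hb : 1 ≤ b) (A : Finset ℤ) (hA : A ⊆ Icc (-(H : ℤ)) H)
    (h : ∀ a ∈ A, ∀ a' ∈ A, (b : ℤ) ∣ a - a') : A.card ≤ 2 * H / b + 1 := by
  have hb0 : (0 : ℤ) < b := by exact_mod_cast hb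
  have h1 : A.card ≤ (range (2 * H / b + 1)).card := by
    apply card_le_card_of_injOn (fun a : ℤ => ((a + H) / b).toNat)
    · intro a ha
      have ha' := mem_Icc.1 (hA ha)
      rw [mem_coe, mem_range, Nat.lt_succ_iff]
      have h2 : (a + H) / (b : ℤ) ≤ (2 * H : ℕ) / (b : ℤ) :=
        Int.ediv_le_ediv hb0 (by push_cast; linarith [ha'.2])
      have h3 : ((2 * H : ℕ) : ℤ) / (b : ℤ) = ((2 * H / b : ℕ) : ℤ) := by
        rw [Int.natCast_div]
      rw [h3] at h2
      exact Int.toNat_le.2 h2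
    · intro a ha a' ha' hh
      simp only at hh
      have e1 := mem_Icc.1 (hA ha)
      have e2 := mem_Icc.1 (hA ha')
      have p1 : 0 ≤ (a + H) / (b : ℤ) := Int.ediv_nonneg (by linarith [e1.1]) hb0.le
      have p2 : 0 ≤ (a' + H) / (b : ℤ) := Int.ediv_nonneg (by linarith [e2.1]) hb0.le
      have h2 : (a + H) / (b : ℤ) = (a' + H) / (b : ℤ) := by omega
      obtain ⟨c, hc⟩ := h a ha a' ha'
      have h3 : a + H = (a' + H) + b * c := by linarith
      rw [h3, Int.add_mul_ediv_left _ _ hb0.ne'] at h2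
      have h4 : c = 0 := by linarith
      rw [h4, mul_zero] at hc
      linarith
  rwa [card_range] at h1

/-- integers in an interval -/
theorem card_int (K : Finset ℤ) (x R : ℝ) (hR : 0 ≤ R) (h : ∀ k ∈ K, |(k : ℝ) + x| ≤ R) :
    (K.card : ℝ) ≤ 2 * R + 1 := by
  have hsub : K ⊆ Icc ⌈-x - R⌉ ⌊-x + R⌋ := by
    intro k hk
    have h1 := abs_le.1 (h k hk)
    rw [mem_Icc, Int.ceil_le, Int.le_floor]
    constructor <;> linarith [h1.1, h1.2]
  have h1 := card_le_card hsub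
  rw [Int.card_Icc] at h1
  have h2 : (K.card : ℝ) ≤ (((⌊-x + R⌋ + 1 - ⌈-x - R⌉).toNat : ℕ) : ℝ) := by exact_mod_cast h1
  refine h2.trans ?_
  rcases le_or_gt 0 (⌊-x + R⌋ + 1 - ⌈-x - R⌉) with h3 | h3
  · have h4 : (((⌊-x + R⌋ + 1 - ⌈-x - R⌉).toNat : ℕ) : ℝ) =
        ((⌊-x + R⌋ + 1 - ⌈-x - R⌉ : ℤ) : ℝ) := by
      exact_mod_cast congrArg (Int.cast : ℤ → ℝ) (Int.toNat_of_nonneg h3)
    rw [h4]
    push_cast
    have h5 := Int.floor_le (-x + R)
    have h6 := Int.le_ceil (-x - R)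
    linarith
  · rw [Int.toNat_of_nonpos h3.le]
    push_cast
    linarith

end ResH

open ResH in
theorem t_RES : S_RES := by
  classical
  intro θ δ b q H hb hbH hq hδ
  obtain ⟨g, hg⟩ : ∃ g, g = Nat.gcd b q := ⟨_, rfl⟩
  have hg0 : 0 < g := by rw [hg]; exact Nat.gcd_pos_of_pos_left _ hb
  rw [← hg]
  obtain ⟨b', hb'⟩ : ∃ b', b' = b / g := ⟨_, rfl⟩
  obtain ⟨q', hq'⟩ : ∃ q', q' = q / g := ⟨_, rfl⟩
  rw [← hb', ← hq']
  have hbb : b = g * b' := by
    rw [hb', Nat.mul_div_cancel' (hg ▸ Nat.gcd_dvd_left b q)]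
  have hqq : q = g * q' := by
    rw [hq', Nat.mul_div_cancel' (hg ▸ Nat.gcd_dvd_right b q)]
  have hcop : Nat.Coprime b' q' := by
    rw [hb', hq', hg]
    exact Nat.coprime_div_gcd_div_gcd (hg ▸ hg0)
  have hb'1 : 1 ≤ b' := by
    rcases Nat.eq_zero_or_pos b' with h | h
    · rw [h] at hbb; omega
    · exact h
  have hb'H : b' ≤ H := by
    refine le_trans ?_ hbH
    rw [hbb]
    exact Nat.le_mul_of_pos_left _ hg0
  have hH1 : 1 ≤ H := hb'1.trans hb'H
  have hgR : (0 : ℝ) < g := by exact_mod_cast hg0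
  have hb'R : (1 : ℝ) ≤ b' := by exact_mod_cast hb'1
  have hb'R0 : (0 : ℝ) < b' := by linarith
  have hb'HR : (b' : ℝ) ≤ H := by exact_mod_cast hb'H
  have hHR : (1 : ℝ) ≤ H := by exact_mod_cast hH1
  obtain ⟨F, hF⟩ : ∃ F : Finset ℤ, F = (Icc (-(H : ℤ)) H).filter
    fun a₀ : ℤ => dn ((q : ℝ) * (((a₀ : ℝ) + θ) / b)) ≤ δ := ⟨_, rfl⟩
  rw [← hF]
  obtain ⟨j, hj⟩ : ∃ j : ℤ → ℤ, ∀ a, j a = round ((q : ℝ) * (((a : ℝ) + θ) / b)) :=
    ⟨_, fun _ => rfl⟩
  obtain ⟨k, hk⟩ : ∃ k : ℤ → ℤ, ∀ a, k a = q' * a - j a * b' := ⟨_, fun _ => rfl⟩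
  have hkF : ∀ a ∈ F, |(k a : ℝ) + q' * θ| ≤ b' * δ := by
    intro a ha
    rw [hF, mem_filter] at ha
    have h1 : dn ((q : ℝ) * (((a : ℝ) + θ) / b)) ≤ δ := ha.2
    unfold dn at h1
    rw [← hj] at h1
    have h2 : (k a : ℝ) + q' * θ = b' * ((q : ℝ) * (((a : ℝ) + θ) / b) - j a) := by
      rw [hk]
      push_cast
      have h3 : (b : ℝ) = g * b' := by exact_mod_cast hbb
      have h4 : (q : ℝ) = g * q' := by exact_mod_cast hqq
      rw [h3, h4]
      field_simp
      ring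
    rw [h2, abs_mul, abs_of_pos hb'R0]
    exact mul_le_mul_of_nonneg_left h1 hb'R0.le
  have hfib : ∀ c ∈ F.image k, (F.filter fun a => k a = c).card ≤ 2 * H / b' + 1 := by
    intro c _
    apply card_class H b' hb'1
    · intro a ha
      have := (mem_filter.1 ha).1
      rw [hF] at this
      exact (mem_filter.1 this).1
    · intro a ha a' ha'
      have h1 := (mem_filter.1 ha).2
      have h2 := (mem_filter.1 ha').2
      rw [hk] at h1 h2
      have h3 : (b' : ℤ) ∣ (a - a') * q' := ⟨j a - j a', by linarith⟩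
      have h4 : IsCoprime (b' : ℤ) (q' : ℤ) := Nat.isCoprime_iff_coprime.2 hcop
      exact h4.dvd_of_dvd_mul_right h3
  have hcard := card_le_mul_card_image F (2 * H / b' + 1) hfib
  have hBR : (((2 * H / b' + 1 : ℕ)) : ℝ) ≤ 4 * H / b' := by
    have h1 : ((2 * H / b' : ℕ) : ℝ) ≤ ((2 * H : ℕ) : ℝ) / b' := Nat.cast_div_le
    push_cast at h1 ⊢
    have h2 : (1 : ℝ) ≤ H / b' := by
      rw [le_div_iff₀ hb'R0]
      linarith
    have h3 : 4 * (H : ℝ) / b' = 2 * H / b' + 2 * (H / b') := by ring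
    rw [h3]
    linarith
  have hcardR : (F.card : ℝ) ≤ 4 * H / b' * ((F.image k).card : ℝ) := by
    calc (F.card : ℝ) ≤ (((2 * H / b' + 1) * (F.image k).card : ℕ) : ℝ) := by exact_mod_cast hcard
      _ = ((2 * H / b' + 1 : ℕ) : ℝ) * ((F.image k).card : ℝ) := Nat.cast_mul _ _
      _ ≤ 4 * H / b' * ((F.image k).card : ℝ) :=
          mul_le_mul_of_nonneg_right hBR (Nat.cast_nonneg _)
  have himg : ∀ c ∈ F.image k, |(c : ℝ) + q' * θ| ≤ b' * δ := by
    intro c hc
    obtain ⟨a, ha, rfl⟩ := mem_image.1 hc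
    exact hkF a ha
  have h16 : 0 ≤ 16 * (H : ℝ) * δ := by positivity
  rcases le_or_gt (1 / 2) ((b' : ℝ) * δ) with hcase | hcase
  · rw [if_neg (fun h => absurd h.2 (not_lt.2 hcase)), add_zero]
    have h1 := card_int (F.image k) (q' * θ) (b' * δ) (by positivity) himg
    calc (F.card : ℝ) ≤ 4 * H / b' * ((F.image k).card : ℝ) := hcardR
      _ ≤ 4 * H / b' * (4 * (b' * δ)) := by
          have : ((F.image k).card : ℝ) ≤ 4 * (b' * δ) := by linarith
          gcongr
      _ = 16 * H * δ := by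
          field_simp
          ring
  · rcases F.eq_empty_or_nonempty with hE | hne
    · rw [hE, card_empty]
      push_cast
      have : (0 : ℝ) ≤ 4 * H / b' := by positivity
      split_ifs <;> linarith
    · obtain ⟨a, ha⟩ := hne
      have h1 : dn ((q' : ℝ) * θ) ≤ b' * δ := by
        refine (dn_le _ (-(k a))).trans ?_
        have h2 : (q' : ℝ) * θ - ((-(k a) : ℤ) : ℝ) = k a + q' * θ := by push_cast; ring
        rw [h2]
        exact hkF a ha
      rw [if_pos ⟨h1, hcase⟩]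
      have h2 : (F.image k).card ≤ 1 := by
        rw [card_le_one]
        intro c hc c' hc'
        have e1 := abs_le.1 (himg c hc)
        have e2 := abs_le.1 (himg c' hc')
        have e3 : ((c - c' : ℤ) : ℝ) < 1 := by push_cast; linarith [e1.2, e2.1]
        have e4 : (-1 : ℝ) < ((c - c' : ℤ) : ℝ) := by push_cast; linarith [e1.1, e2.2]
        have e5 : c - c' < 1 := by exact_mod_cast e3
        have e6 : -1 < c - c' := by exact_mod_cast e4
        omega
      have h3 : ((F.image k).card : ℝ) ≤ 1 := by exact_mod_cast h2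
      have h4 : (F.card : ℝ) ≤ 4 * H / b' := by
        refine hcardR.trans ?_
        have h5 : (0 : ℝ) ≤ 4 * H / b' := by positivity
        calc 4 * H / b' * ((F.image k).card : ℝ) ≤ 4 * H / b' * 1 := by gcongr
          _ = 4 * H / b' := mul_one _
      linarith

end Pool.Agent.N965.LN
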