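import Pool.Agent.N965.LN.Stm
import Pool.Agent.R333.SubR

/-!
# SCH: Schmidt's theorem on simultaneous approximation
-/

set_option autoImplicit false

open Finset Filter Topology

namespace Pool.Agent.N965.LN

namespace SchAux

variable {m : ℕ}

theorem dn_nonneg (x : ℝ) : 0 ≤ dn x := abs_nonneg _

theorem dn_le (x : ℝ) : dn x ≤ 1 / 2 := abs_sub_round x

/-- the distances are positive -/
theorem dn_pos {ξ : Fin m → ℝ} (hI : Indep ξ) (n : ℕ) (hn : 1 ≤ n) (i : Fin m) :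
    0 < dn ((n : ℝ) * ξ i) := by
  classical
  refine lt_of_le_of_ne (dn_nonneg _) fun h => ?_
  have h1 : (n : ℝ) * ξ i - round ((n : ℝ) * ξ i) = 0 := abs_eq_zero.1 h.symm
  have h2 := hI (fun j => if j = i then (n : ℤ) else 0) (-round ((n : ℝ) * ξ i)) (by
    have h3 : ∑ j, (((if j = i then (n : ℤ) else 0 : ℤ)) : ℝ) * ξ j = (n : ℝ) * ξ i := by
      rw [Finset.sum_eq_single i]
      · simp
      · intro j _ hj
        simp [hj]
      · intro h
        exact absurd (Finset.mem_univ i) h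
    rw [h3]
    push_cast
    linarith)
  have h4 := congrFun h2 i
  simp at h4
  omega

/-- discretization of the exponents -/
theorem disc (G : ℕ) (hG : 1 ≤ G) (τ : ℝ) (_hτ : 0 < τ) (hGτ : (m : ℝ) / G ≤ τ / 2)
    (d : Fin m → ℝ) (hd0 : ∀ i, 0 < d i) (hd1 : ∀ i, d i ≤ 1 / 2) (n M : ℕ) (hM : 1 ≤ M)
    (hn : 2 ^ M ≤ n) (hprod : ∏ i, d i < (n : ℝ) ^ (-(1 + τ))) :
    ∃ k : Fin m → Fin ((m + 3) * G + 1), (∀ i, d i ≤ (2 : ℝ) ^ (-((k i : ℕ) : ℝ) / G * M)) ∧
      1 + min (τ / 2) 1 ≤ ∑ i, ((k i : ℕ) : ℝ) / G := by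
  classical
  have hL : 0 < Real.log 2 := Real.log_pos (by norm_num)
  have hG0 : (0 : ℝ) < G := by exact_mod_cast hG
  have hM0 : (0 : ℝ) < M := by exact_mod_cast hM
  obtain ⟨u, hu⟩ : ∃ u : Fin m → ℝ, u = fun i => -Real.log (d i) / (M * Real.log 2) := ⟨_, rfl⟩
  have hlog : ∀ i, Real.log (d i) = -(u i * M * Real.log 2) := by
    intro i
    rw [hu]
    field_simp
  have hu0 : ∀ i, 0 ≤ u i := by
    intro i
    rw [hu]
    refine div_nonneg ?_ (by positivity)
    have := Real.log_nonpos (hd0 i).le ((hd1 i).trans (by norm_num))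
    linarith
  have hn0 : (0 : ℝ) < n := by
    have : 0 < n := lt_of_lt_of_le (by positivity) hn
    exact_mod_cast this
  have hsumu : 1 + τ ≤ ∑ i, u i := by
    have h1 := Real.log_lt_log (Finset.prod_pos fun i _ => hd0 i) hprod
    rw [Real.log_prod (fun i _ => (hd0 i).ne'), Real.log_rpow hn0] at h1
    have h2 : (M : ℝ) * Real.log 2 ≤ Real.log n := by
      rw [← Real.log_pow]
      apply Real.log_le_log (by positivity)
      exact_mod_cast hn
    have h3 : ∑ i, Real.log (d i) = -((∑ i, u i) * (M * Real.log 2)) := by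
      rw [Finset.sum_mul, ← Finset.sum_neg_distrib]
      apply Finset.sum_congr rfl
      intro i _
      rw [hlog]
      ring
    rw [h3] at h1
    have h4 : (1 + τ) * (M * Real.log 2) ≤ (1 + τ) * Real.log n :=
      mul_le_mul_of_nonneg_left h2 (by linarith)
    have h5 : (1 + τ) * (M * Real.log 2) ≤ (∑ i, u i) * (M * Real.log 2) := by linarith
    exact le_of_mul_le_mul_right h5 (by positivity)
  refine ⟨fun i => ⟨min ⌊(G : ℝ) * u i⌋₊ ((m + 3) * G), by
    have := min_le_right ⌊(G : ℝ) * u i⌋₊ ((m + 3) * G)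
    omega⟩, fun i => ?_, ?_⟩
  · dsimp only
    have h1 : ((min ⌊(G : ℝ) * u i⌋₊ ((m + 3) * G) : ℕ) : ℝ) ≤ G * u i := by
      refine le_trans ?_ (Nat.floor_le (mul_nonneg hG0.le (hu0 i)))
      exact_mod_cast min_le_left _ _
    generalize min ⌊(G : ℝ) * u i⌋₊ ((m + 3) * G) = k at h1 ⊢
    rw [← Real.log_le_log_iff (hd0 i) (by positivity), Real.log_rpow (by norm_num), hlog]
    have h2 : (k : ℝ) / G ≤ u i := by
      rw [div_le_iff₀ hG0]
      linarith
    have h3 : (k : ℝ) / G * (M * Real.log 2) ≤ u i * (M * Real.log 2) :=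
      mul_le_mul_of_nonneg_right h2 (by positivity)
    have h4 : -(k : ℝ) / G * M * Real.log 2 = -((k : ℝ) / G * (M * Real.log 2)) := by ring
    rw [h4]
    linarith
  · dsimp only
    by_cases hcap : ∃ i, (m + 3) * G ≤ ⌊(G : ℝ) * u i⌋₊
    · obtain ⟨i, hi⟩ := hcap
      have h1 : ((min ⌊(G : ℝ) * u i⌋₊ ((m + 3) * G) : ℕ) : ℝ) / G = m + 3 := by
        rw [min_eq_right hi]
        push_cast
        field_simp
      have h2 : ((min ⌊(G : ℝ) * u i⌋₊ ((m + 3) * G) : ℕ) : ℝ) / G ≤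
          ∑ i, ((min ⌊(G : ℝ) * u i⌋₊ ((m + 3) * G) : ℕ) : ℝ) / G :=
        Finset.single_le_sum (f := fun i => ((min ⌊(G : ℝ) * u i⌋₊ ((m + 3) * G) : ℕ) : ℝ) / G)
          (fun j _ => by positivity) (Finset.mem_univ i)
      rw [h1] at h2
      have h3 : min (τ / 2) 1 ≤ 1 := min_le_right _ _
      have h4 : (0 : ℝ) ≤ m := Nat.cast_nonneg m
      linarith
    · push Not at hcap
      have h1 : ∀ i, u i - 1 / G ≤ ((min ⌊(G : ℝ) * u i⌋₊ ((m + 3) * G) : ℕ) : ℝ) / G := by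
        intro i
        rw [min_eq_left (hcap i).le]
        rw [le_div_iff₀ hG0, sub_mul, one_div, inv_mul_cancel₀ hG0.ne']
        have := Nat.lt_floor_add_one ((G : ℝ) * u i)
        linarith
      have h2 := Finset.sum_le_sum fun i (_ : i ∈ Finset.univ) => h1 i
      rw [Finset.sum_sub_distrib, Finset.sum_const, Finset.card_univ, Fintype.card_fin,
        nsmul_eq_mul] at h2
      have h3 : (m : ℝ) * (1 / G) = m / G := by ring
      rw [h3] at h2
      have h4 : min (τ / 2) 1 ≤ τ / 2 := min_le_left _ _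
      linarith

theorem freq_fin {α : Type} [Finite α] (R : ℕ → α → Prop) (h : ∃ᶠ n in atTop, ∃ k, R n k) :
    ∃ k, ∃ᶠ n in atTop, R n k := by
  by_contra hcon
  push Not at hcon
  have h1 : ∀ᶠ n in atTop, ∀ k, ¬ R n k := by
    rw [eventually_all]
    intro k
    exact hcon k
  exact h (h1.mono fun n hn ⟨k, hk⟩ => hn k hk)

theorem tendsto_log : Tendsto (fun n : ℕ => Nat.log 2 n) atTop atTop := by
  rw [tendsto_atTop]
  intro b
  filter_upwards [eventually_ge_atTop (2 ^ b)] with n hn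
  exact Nat.le_log_of_pow_le (by norm_num) hn

end SchAux

open SchAux

theorem t_SCH : S_SCH := by
  classical
  intro m ξ hm halg hI τ hτ
  -- it suffices to consider large `n`
  suffices hlarge : ∀ᶠ n : ℕ in atTop, (n : ℝ) ^ (-(1 + τ)) ≤ ∏ i, dn ((n : ℝ) * ξ i) by
    obtain ⟨N, hN⟩ := eventually_atTop.1 hlarge
    have hpos : ∀ n : ℕ, 1 ≤ n → 0 < ∏ i, dn ((n : ℝ) * ξ i) := fun n hn =>
      Finset.prod_pos fun i _ => dn_pos hI n hn i
    have hsmall : ∀ N : ℕ, ∃ c : ℝ, 0 < c ∧ c ≤ 1 ∧ ∀ n : ℕ, 1 ≤ n → n < N →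
        c * (n : ℝ) ^ (-(1 + τ)) ≤ ∏ i, dn ((n : ℝ) * ξ i) := by
      intro N
      induction N with
      | zero => exact ⟨1, one_pos, le_rfl, fun n _ h => absurd h (by omega)⟩
      | succ N ih =>
        obtain ⟨c, hc, hc1, h⟩ := ih
        rcases Nat.eq_zero_or_pos N with hN0 | hN0
        · exact ⟨1, one_pos, le_rfl, fun n h1 h2 => absurd h2 (by omega)⟩
        · have hNp : (0 : ℝ) < (N : ℝ) ^ (-(1 + τ)) :=
            Real.rpow_pos_of_pos (by exact_mod_cast hN0) _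
          refine ⟨min c ((∏ i, dn ((N : ℝ) * ξ i)) / (N : ℝ) ^ (-(1 + τ))),
            lt_min hc (div_pos (hpos N hN0) hNp), (min_le_left _ _).trans hc1, fun n h1 h2 => ?_⟩
          have hnp : (0 : ℝ) < (n : ℝ) ^ (-(1 + τ)) :=
            Real.rpow_pos_of_pos (by exact_mod_cast h1) _
          rcases Nat.lt_succ_iff_lt_or_eq.1 h2 with h3 | rfl
          · exact (mul_le_mul_of_nonneg_right (min_le_left _ _) hnp.le).trans (h n h1 h3)
          · refine (mul_le_mul_of_nonneg_right (min_le_right _ _) hnp.le).trans ?_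
            rw [div_mul_cancel₀ _ hnp.ne']
    obtain ⟨c, hc, hc1, h⟩ := hsmall N
    refine ⟨c, hc, fun n hn => ?_⟩
    rcases lt_or_ge n N with h1 | h1
    · exact h n hn h1
    · refine le_trans ?_ (hN n h1)
      have hnp : (0 : ℝ) < (n : ℝ) ^ (-(1 + τ)) :=
        Real.rpow_pos_of_pos (by exact_mod_cast hn) _
      calc c * (n : ℝ) ^ (-(1 + τ)) ≤ 1 * (n : ℝ) ^ (-(1 + τ)) :=
            mul_le_mul_of_nonneg_right hc1 hnp.le
        _ = _ := one_mul _
  by_contra hcon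
  rw [not_eventually] at hcon
  have hfr1 : ∃ᶠ n : ℕ in atTop, ∏ i, dn ((n : ℝ) * ξ i) < (n : ℝ) ^ (-(1 + τ)) :=
    hcon.mono fun n hn => not_le.1 hn
  -- the grid
  obtain ⟨G, hG⟩ : ∃ G : ℕ, G = ⌈2 * (m : ℝ) / τ⌉₊ + 1 := ⟨_, rfl⟩
  have hG1 : 1 ≤ G := by omega
  have hG0 : (0 : ℝ) < G := by exact_mod_cast hG1
  have hGτ : (m : ℝ) / G ≤ τ / 2 := by
    have h1 : 2 * (m : ℝ) / τ ≤ G := by
      have := Nat.le_ceil (2 * (m : ℝ) / τ)
      rw [hG]
      push_cast
      linarith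
    rw [div_le_iff₀ hτ] at h1
    rw [div_le_iff₀ hG0]
    linarith
  have hfr2 : ∃ᶠ n : ℕ in atTop, ∃ k : Fin m → Fin ((m + 3) * G + 1), n ≠ 0 ∧
      (∀ i, dn ((n : ℝ) * ξ i) ≤ (2 : ℝ) ^ (-((k i : ℕ) : ℝ) / G * (Nat.log 2 n : ℕ))) ∧
      1 + min (τ / 2) 1 ≤ ∑ i, ((k i : ℕ) : ℝ) / G := by
    refine (hfr1.and_eventually (eventually_ge_atTop 2)).mono ?_
    rintro n ⟨h1, h2⟩
    obtain ⟨k, hk1, hk2⟩ := disc G hG1 τ hτ hGτ (fun i => dn ((n : ℝ) * ξ i))
      (fun i => dn_pos hI n (by omega) i) (fun i => dn_le _) n (Nat.log 2 n)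
      (Nat.log_pos (by norm_num) h2) (Nat.pow_log_le_self 2 (by omega)) h1
    exact ⟨k, by omega, hk1, hk2⟩
  obtain ⟨k, hk⟩ := freq_fin _ hfr2
  have hksum : 1 + min (τ / 2) 1 ≤ ∑ i, ((k i : ℕ) : ℝ) / G := by
    obtain ⟨n, -, -, h⟩ := hk.exists
    exact h
  obtain ⟨P, hPdef⟩ : ∃ P : ℕ → Prop, ∀ M, P M ↔ ∃ n : ℕ, Nat.log 2 n = M ∧ n ≠ 0 ∧
      ∀ i, dn ((n : ℝ) * ξ i) ≤ (2 : ℝ) ^ (-((k i : ℕ) : ℝ) / G * M) := ⟨_, fun M => Iff.rfl⟩
  have hP : ∃ᶠ M in atTop, P M := by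
    refine tendsto_log.frequently (hk.mono ?_)
    rintro n ⟨h1, h2, -⟩
    rw [hPdef]
    exact ⟨n, rfl, h1, h2⟩
  choose! ν hν using fun M (h : P M) => (hPdef M).1 h
  obtain ⟨A, hA⟩ : ∃ A : Matrix (Fin (m + 1)) (Fin (m + 1)) ℝ,
      A = Fin.cons (Fin.cons 1 (fun _ => 0))
        (fun i => Fin.cons (ξ i) (fun j => if j = i then -1 else 0)) := ⟨_, rfl⟩
  have hA00 : A 0 0 = 1 := by rw [hA]; rfl
  have hA0s : ∀ j : Fin m, A 0 j.succ = 0 := by intro j; rw [hA]; rfl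
  have hAs0 : ∀ i : Fin m, A i.succ 0 = ξ i := by intro i; rw [hA]; rfl
  have hAss : ∀ i j : Fin m, A i.succ j.succ = if j = i then -1 else 0 := by
    intro i j; rw [hA]; rfl
  obtain ⟨x, hx⟩ : ∃ x : ℕ → Fin (m + 1) → ℤ, x = fun M => Fin.cons ((ν M : ℕ) : ℤ)
      (fun i => round ((ν M : ℝ) * ξ i)) := ⟨_, rfl⟩
  have hx0 : ∀ M, x M 0 = (ν M : ℤ) := by intro M; rw [hx]; rfl
  have hxs : ∀ M (i : Fin m), x M i.succ = round ((ν M : ℝ) * ξ i) := by
    intro M i; rw [hx]; rfl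
  obtain ⟨y, hy, hyfr⟩ := Pool.Agent.R333.SubR.sub_real (n := m + 1) (by omega) 2 le_rfl A
    (by
      intro i j
      refine Fin.cases ?_ (fun i => ?_) i
      · refine Fin.cases ?_ (fun j => ?_) j
        · rw [hA00]; exact isAlgebraic_one
        · rw [hA0s]; exact isAlgebraic_zero
      · refine Fin.cases ?_ (fun j => ?_) j
        · rw [hAs0]; exact halg i
        · rw [hAss]
          split_ifs
          · exact isAlgebraic_one.neg
          · exact isAlgebraic_zero)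
    (by
      intro i j
      refine Fin.cases ?_ (fun i => ?_) i
      · refine Fin.cases ?_ (fun j => ?_) j
        · intro h; exact absurd h (lt_irrefl _)
        · intro _; exact hA0s j
      · refine Fin.cases ?_ (fun j => ?_) j
        · intro h; exact absurd h (not_lt.2 (Fin.zero_le _))
        · intro h
          rw [hAss, if_neg]
          rintro rfl
          exact lt_irrefl _ h)
    (by
      intro i
      refine Fin.cases ?_ (fun i => ?_) i
      · rw [hA00]; exact one_ne_zero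
      · rw [hAss, if_pos rfl]; norm_num)
    P hP x (by
      intro M hM h
      have h1 := congrFun h 0
      rw [hx0, Pi.zero_apply] at h1
      exact (hν M hM).2.1 (by exact_mod_cast h1))
    (fun _ _ => 1) 0 (fun _ _ _ => one_dvd _) (fun _ _ _ => by simp)
    (Fin.cons 1 (fun i => -((k i : ℕ) : ℝ) / G)) 2 (by norm_num) (by
      intro M l hM
      obtain ⟨h1, h2, h3⟩ := hν M hM
      refine Fin.cases ?_ (fun i => ?_) l
      · rw [Fin.sum_univ_succ, hA00, hx0]
        have h4 : ∑ j : Fin m, A 0 j.succ * (x M j.succ : ℝ) = 0 :=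
          Finset.sum_eq_zero fun j _ => by rw [hA0s, zero_mul]
        rw [h4, add_zero, one_mul, Fin.cons_zero, one_mul]
        have h5 : ν M < 2 ^ (M + 1) := by
          have h9 := Nat.lt_pow_succ_log_self (b := 2) (by norm_num) (ν M)
          rwa [h1] at h9
        have h6 : ((ν M : ℤ) : ℝ) = (ν M : ℝ) := by push_cast; rfl
        rw [h6, abs_of_nonneg (Nat.cast_nonneg _)]
        have h7 : (ν M : ℝ) ≤ 2 ^ (M + 1) := by exact_mod_cast h5.le
        have h8 : ((2 : ℕ) : ℝ) ^ (M : ℝ) = 2 ^ M := by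
          rw [Real.rpow_natCast]; norm_num
        rw [h8]
        rw [pow_succ] at h7
        linarith
      · rw [Fin.sum_univ_succ, hAs0, hx0]
        have h4 : ∑ j : Fin m, A i.succ j.succ * (x M j.succ : ℝ) =
            -(round ((ν M : ℝ) * ξ i) : ℝ) := by
          rw [Finset.sum_eq_single i]
          · rw [hAss, if_pos rfl, hxs]; ring
          · intro j _ hj
            rw [hAss, if_neg hj, zero_mul]
          · intro h; exact absurd (Finset.mem_univ i) h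
        rw [h4, Fin.cons_succ]
        have h5 : ξ i * ((ν M : ℤ) : ℝ) + -(round ((ν M : ℝ) * ξ i) : ℝ) =
            (ν M : ℝ) * ξ i - round ((ν M : ℝ) * ξ i) := by
          push_cast; ring
        rw [h5]
        have h6 := h3 i
        have h7 : (0 : ℝ) < (2 : ℝ) ^ (-((k i : ℕ) : ℝ) / G * M) := by positivity
        unfold dn at h6
        have h8 : ((2 : ℕ) : ℝ) = 2 := by norm_num
        rw [h8]
        linarith)
    (min (τ / 2) 1) (lt_min (by linarith) one_pos) (by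
      intro M _
      have h1 : ∑ l : Fin (m + 1), (Fin.cons 1 (fun i => -((k i : ℕ) : ℝ) / G) :
          Fin (m + 1) → ℝ) l = 1 - ∑ i, ((k i : ℕ) : ℝ) / G := by
        rw [Fin.sum_univ_succ, Fin.cons_zero]
        simp only [Fin.cons_succ]
        rw [sub_eq_add_neg, ← Finset.sum_neg_distrib]
        congr 1
        apply Finset.sum_congr rfl
        intro i _
        ring
      rw [h1]
      have h2 : ∑ l : Fin (m + 1), Real.log ((1 : ℕ) : ℝ) = 0 := by simp
      rw [h2]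
      have h3 : (1 - ∑ i, ((k i : ℕ) : ℝ) / G) + min (τ / 2) 1 ≤ 0 := by linarith
      have h4 : 0 ≤ (M : ℝ) * Real.log ((2 : ℕ) : ℝ) :=
        mul_nonneg (Nat.cast_nonneg M) (Real.log_nonneg (by norm_num))
      have h5 := mul_nonpos_of_nonpos_of_nonneg h3 h4
      rw [mul_assoc]
      exact h5)
  -- the linear relation
  obtain ⟨L, hL⟩ : ∃ L : ℝ, L = (y 0 : ℝ) + ∑ i : Fin m, (y i.succ : ℝ) * ξ i := ⟨_, rfl⟩
  have hL0 : L ≠ 0 := by
    intro h
    apply hy
    have h1 := hI (fun i => y i.succ) (y 0) (by rw [← hL, h])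
    have h2 : (y 0 : ℝ) = 0 := by
      rw [h] at hL
      have h3 : ∑ i : Fin m, (y i.succ : ℝ) * ξ i = 0 := by
        refine Finset.sum_eq_zero fun i _ => ?_
        have h4 := congrFun h1 i
        simp only [Pi.zero_apply] at h4
        rw [h4]
        simp
      rw [h3, add_zero] at hL
      exact hL.symm
    funext i
    refine Fin.cases ?_ (fun i => ?_) i
    · exact_mod_cast h2
    · exact congrFun h1 i
  have hLp : 0 < |L| := abs_pos.2 hL0
  obtain ⟨Y, hY⟩ : ∃ Y : ℝ, Y = ∑ i : Fin m, |(y i.succ : ℝ)| := ⟨_, rfl⟩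
  have hev : ∀ᶠ M : ℕ in atTop, Y / |L| < M :=
    tendsto_natCast_atTop_atTop.eventually_gt_atTop _
  obtain ⟨M, ⟨hPM, hrel⟩, hMY⟩ := (hyfr.and_eventually hev).exists
  obtain ⟨h1, h2, -⟩ := hν M hPM
  have hnM : (M : ℝ) ≤ ν M := by
    have h3 : 2 ^ M ≤ ν M := by
      have h9 := Nat.pow_log_le_self 2 h2
      rwa [h1] at h9
    have h4 : M < 2 ^ M := Nat.lt_two_pow_self
    exact_mod_cast h4.le.trans h3
  have hrel2 : (ν M : ℝ) * L = ∑ i : Fin m, (y i.succ : ℝ) *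
      ((ν M : ℝ) * ξ i - round ((ν M : ℝ) * ξ i)) := by
    rw [Fin.sum_univ_succ, hx0] at hrel
    have h3 : (y 0 : ℝ) * (ν M : ℝ) + ∑ i : Fin m, (y i.succ : ℝ) *
        (round ((ν M : ℝ) * ξ i) : ℝ) = 0 := by
      have h4 := congrArg (Int.cast : ℤ → ℝ) hrel
      push_cast at h4
      simp only [hxs] at h4
      exact h4
    have h5 : ∑ i : Fin m, (y i.succ : ℝ) * ((ν M : ℝ) * ξ i - round ((ν M : ℝ) * ξ i)) =
        (ν M : ℝ) * (∑ i : Fin m, (y i.succ : ℝ) * ξ i) -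
          ∑ i : Fin m, (y i.succ : ℝ) * (round ((ν M : ℝ) * ξ i) : ℝ) := by
      rw [Finset.mul_sum, ← Finset.sum_sub_distrib]
      apply Finset.sum_congr rfl
      intro i _
      ring
    rw [h5, hL]
    linear_combination h3
  have hle : (ν M : ℝ) * |L| ≤ Y := by
    have h3 : (ν M : ℝ) * |L| = |(ν M : ℝ) * L| := by
      rw [abs_mul, abs_of_nonneg (Nat.cast_nonneg _ : (0 : ℝ) ≤ ν M)]
    rw [h3, hrel2, hY]
    refine (Finset.abs_sum_le_sum_abs _ _).trans (Finset.sum_le_sum fun i _ => ?_)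
    rw [abs_mul]
    have h4 := abs_sub_round ((ν M : ℝ) * ξ i)
    calc |(y i.succ : ℝ)| * |(ν M : ℝ) * ξ i - round ((ν M : ℝ) * ξ i)| ≤
          |(y i.succ : ℝ)| * 1 := mul_le_mul_of_nonneg_left (by linarith) (abs_nonneg _)
      _ = _ := mul_one _
  rw [div_lt_iff₀ hLp] at hMY
  have h3 : (M : ℝ) * |L| ≤ (ν M : ℝ) * |L| := mul_le_mul_of_nonneg_right hnM hLp.le
  linarith

end Pool.Agent.N965.LN
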