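import Mathlib

set_option autoImplicit false

/-!
# Project LN (helper965): Lang's inequality for almost all elements of every real number field

Definitions and statements of the leaves.
-/

open Finset Filter Topology

namespace Pool.Agent.N965.LN

/-- the distance to the nearest integer -/
noncomputable def dn (x : ℝ) : ℝ := |x - round x|

/-- `min (4 H) (1 / (4 H ‖x‖²))` -/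
noncomputable def KK (H : ℕ) (x : ℝ) : ℝ :=
  if dn x = 0 then 4 * (H : ℝ) else min (4 * (H : ℝ)) (1 / (4 * (H : ℝ) * dn x ^ 2))

/-- the integral vectors with entries of absolute value at most `H` -/
noncomputable def box (m H : ℕ) : Finset (Fin m → ℤ) := Fintype.piFinset fun _ => Icc (-(H : ℤ)) H

/-- `1, ξ 0, …, ξ (m - 1)` are linearly independent over `ℚ` -/
def Indep {m : ℕ} (ξ : Fin m → ℝ) : Prop :=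
  ∀ (a : Fin m → ℤ) (a₀ : ℤ), (a₀ : ℝ) + ∑ i, (a i : ℝ) * ξ i = 0 → a = 0

/-- Schmidt's inequality -/
def Sch {m : ℕ} (ξ : Fin m → ℝ) : Prop :=
  ∀ τ : ℝ, 0 < τ → ∃ c : ℝ, 0 < c ∧ ∀ n : ℕ, 1 ≤ n →
    c * (n : ℝ) ^ (-(1 + τ)) ≤ ∏ i, dn ((n : ℝ) * ξ i)

def Cnt {m : ℕ} (ξ : Fin m → ℝ) : Prop :=
  ∀ τ : ℝ, 0 < τ → ∃ C : ℝ, 0 < C ∧ ∀ H : ℕ, 1 ≤ H → ∀ (N : ℕ) (r : Fin m → ℝ),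
    (∀ i, 1 / (H : ℝ) ≤ r i) → (∀ i, r i ≤ 1) →
    (((Icc 1 N).filter fun n : ℕ => ∀ i, dn ((n : ℝ) * ξ i) ≤ r i).card : ℝ) ≤
      C * N * (∏ i, r i) * (H : ℝ) ^ τ

def Ksum {m : ℕ} (ξ : Fin m → ℝ) : Prop :=
  ∀ τ : ℝ, 0 < τ → ∃ C : ℝ, 0 < C ∧ ∀ H : ℕ, 1 ≤ H → ∀ N : ℕ,
    ∑ n ∈ Icc 1 N, ∏ i, KK H ((n : ℝ) * ξ i) ≤ C * N * (H : ℝ) ^ τ

def FT {m : ℕ} (ξ : Fin m → ℝ) : Prop :=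
  ∀ τ : ℝ, 0 < τ → ∃ C : ℝ, 0 < C ∧ ∀ H : ℕ, 1 ≤ H → ∀ Y : ℝ, 0 < Y → ∀ s : ℕ,
    ∑ t ∈ Icc 1 s, ∑ v ∈ Icc 1 ⌊(t : ℝ) * Y⌋₊, ∏ i, KK H (((v * t : ℕ) : ℝ) * ξ i) ≤
      C * (Y * (s : ℝ) ^ 2) ^ (1 + τ) * (H : ℝ) ^ τ

/-- SCH: Schmidt's theorem on simultaneous approximation, from the subspace theorem -/
def S_SCH : Prop := ∀ (m : ℕ) (ξ : Fin m → ℝ), 1 ≤ m → (∀ i, IsAlgebraic ℚ (ξ i)) → Indep ξ → Sch ξ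

/-- CNT -/
def S_CNT : Prop := ∀ (m : ℕ) (ξ : Fin m → ℝ), Sch ξ → Cnt ξ

/-- KS -/
def S_KS : Prop := ∀ (m : ℕ) (ξ : Fin m → ℝ), Cnt ξ → Ksum ξ

/-- FTL -/
def S_FTL : Prop := ∀ (m : ℕ) (ξ : Fin m → ℝ), Ksum ξ → FT ξ

/-- PS: partial summation -/
def S_PS : Prop := ∀ (f : ℕ → ℝ) (A τ : ℝ) (T : ℕ), (∀ n, 0 ≤ f n) → 0 ≤ A → 0 < τ →
  (∀ s : ℕ, s ≤ T → ∑ t ∈ Icc 1 s, f t ≤ A * (s : ℝ) ^ (2 + 2 * τ)) →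
    ∑ t ∈ Icc 1 T, f t / t ≤ 2 * A * (T : ℝ) ^ (1 + 2 * τ)

/-- FEJ: the Fejér majorant -/
def S_FEJ : Prop := ∀ (m H : ℕ) (β : Fin m → ℝ) (ρ : ℝ), 1 ≤ H → 0 < ρ → ρ ≤ 1 / 2 →
  (((box m H).filter fun a => dn (∑ i, (a i : ℝ) * β i) ≤ ρ).card : ℝ) ≤
    10 * ρ * (4 * (H : ℝ)) ^ m + 20 * ρ * ∑ v ∈ Icc 1 ⌊1 / (2 * ρ)⌋₊, ∏ i, KK H ((v : ℝ) * β i)

/-- RES: the number of the `a₀` -/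
def S_RES : Prop := ∀ (θ δ : ℝ) (b q H : ℕ), 1 ≤ b → b ≤ H → 1 ≤ q → 0 < δ →
  (((Icc (-(H : ℤ)) H).filter fun a₀ : ℤ => dn ((q : ℝ) * (((a₀ : ℝ) + θ) / b)) ≤ δ).card : ℝ) ≤
    16 * H * δ + if dn (((q / Nat.gcd b q : ℕ) : ℝ) * θ) ≤ ((b / Nat.gcd b q : ℕ) : ℝ) * δ ∧
      ((b / Nat.gcd b q : ℕ) : ℝ) * δ < 1 / 2 then 4 * H / ((b / Nat.gcd b q : ℕ) : ℝ) else 0

/-- INJ: reindexing -/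
def S_INJ : Prop := ∀ (X H : ℕ) (Φ : ℕ → ℕ → ℕ → ℝ), (∀ g b t, 0 ≤ Φ g b t) →
  ∑ q ∈ Icc 1 X, ∑ b ∈ Icc 1 H, Φ (Nat.gcd b q) (b / Nat.gcd b q) (q / Nat.gcd b q) ≤
    ∑ g ∈ Icc 1 H, ∑ b ∈ Icc 1 (H / g), ∑ t ∈ Icc 1 (X / g), Φ g b t

/-- PSI: sums of the function `ψ` -/
def S_PSI : Prop := ∀ ψ : ℕ → ℝ, (∀ n, 0 ≤ ψ n) → Antitone ψ → Summable ψ →
  (∀ n : ℕ, (n : ℝ) * ψ n ≤ ∑' n, ψ n) ∧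
    ∀ H X : ℕ, ∑ g ∈ Icc 1 H, 1 / (g : ℝ) * ∑ t ∈ Icc 1 (X / g), ψ (g * t) ≤ 2 * ∑' n, ψ n

/-- ERR: the error term (may use `S_PS` and the first part of `S_PSI`) -/
def S_ERR : Prop := ∀ (m : ℕ) (ξ : Fin m → ℝ), FT ξ → ∀ τ : ℝ, 0 < τ → τ ≤ 1 →
  ∀ ψ : ℕ → ℝ, (∀ n, 0 < ψ n) → Antitone ψ → Summable ψ →
  ∀ D : ℝ, 0 < D → (∀ n : ℕ, 1 ≤ n → (n : ℝ) ^ (-(1 + τ)) ≤ D * ψ n) →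
  ∀ c : ℝ, 0 < c → ∃ C : ℝ, 0 < C ∧ ∀ H X : ℕ, 1 ≤ H → 1 ≤ X →
    ∑ g ∈ Icc 1 H, ∑ b ∈ Icc 1 (H / g), ∑ t ∈ Icc 1 (X / g), (H : ℝ) * ψ (g * t) *
      (∑ v ∈ Icc 1 ⌊1 / (2 * ((b : ℝ) * (c * ψ (g * t))))⌋₊, ∏ i, KK H (((v * t : ℕ) : ℝ) * ξ i)) ≤
      C * (H : ℝ) ^ (1 + τ) * (X : ℝ) ^ (1 + 4 * τ)

/-- the real number with the coordinates `b`, `a₀`, `a` -/
noncomputable def num {m : ℕ} (ξ : Fin m → ℝ) (b : ℕ) (a₀ : ℤ) (a : Fin m → ℤ) : ℝ :=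
  ((a₀ : ℝ) + ∑ i, (a i : ℝ) * ξ i) / b

/-- SMALL: bounded heights -/
def S_SMALL : Prop := ∀ (m : ℕ) (ξ : Fin m → ℝ), Indep ξ → ∀ (ψ : ℕ → ℝ) (H X : ℕ), ∃ c : ℝ, 0 < c ∧
  ∀ (b : ℕ) (a₀ : ℤ) (a : Fin m → ℤ), 1 ≤ b → b ≤ H → a₀ ∈ Icc (-(H : ℤ)) H → a ∈ box m H →
    a ≠ 0 → ∀ (p : ℤ) (q : ℕ), 1 ≤ q → q ≤ X → c * ψ q / q < |num ξ b a₀ a - (p : ℝ) / q|

/-- the numbers `(a 0 * e 0 + … + a m * e m) / b` with `|a i| ≤ H` and `1 ≤ b ≤ H` -/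
def El {m : ℕ} (e : Fin (m + 1) → ℝ) (H : ℕ) : Set ℝ :=
  {α | ∃ (a : Fin (m + 1) → ℤ) (b : ℕ), (∀ i, |a i| ≤ (H : ℤ)) ∧ 1 ≤ b ∧ b ≤ H ∧
    α = (∑ i, (a i : ℝ) * e i) / b}

/-- LOW: the number of elements of height at most `H` -/
def S_LOW : Prop := ∀ (m : ℕ), 1 ≤ m → ∀ e : Fin (m + 1) → ℝ, LinearIndependent ℚ e → e 0 = 1 →
  ∀ H : ℕ, 1 ≤ H → (El e H).Finite ∧
    1 / 4 * (H : ℝ) ^ (m + 2) ≤ ({α ∈ El e H | Irrational α}.ncard : ℝ)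

end Pool.Agent.N965.LN
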